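import Pool.Agent.P.MP_530519_al.SS.Deg

/-! Characters with values in the `n`-th cyclotomic field over every character of a normal Hall
subgroup of odd exponent `n`. -/

namespace Pool.Agent.P.MP_530519_al

open Set Subgroup
open scoped Classical

variable {G : Type} [Group G] [Fintype G] {N M H S : Subgroup G} {l n e e' : ℕ}
  {β a b χ θ ψ : G → ℂ}

/-- Fixed by the Galois automorphisms that fix the `n`-th roots of unity. -/
def FixN (n e : ℕ) (H : Subgroup G) (χ : G → ℂ) : Prop :=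
  ∀ s : ℕ, s.Coprime e → s ≡ 1 [MOD n] → EqOn (pw s χ) χ H

theorem exists_sN (hc : n.Coprime e') (he : e' ≠ 0) :
    ∃ s : ℕ, s.Coprime (n * e') ∧ s ≡ 1 [MOD n] ∧ e' ∣ s + 1 := by
  obtain ⟨s, h1, h2⟩ := Nat.chineseRemainder hc 1 (e' - 1)
  have h3 : e' ∣ s + 1 := by
    have := h2.add_right 1
    rw [Nat.sub_add_cancel (Nat.pos_of_ne_zero he)] at this
    exact (Nat.modEq_zero_iff_dvd.mp (this.trans (Nat.modEq_zero_iff_dvd.mpr dvd_rfl)))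
  exact ⟨s, Nat.Coprime.mul_right (Nat.coprime_iff_gcd_eq_one.mpr (h1.gcd_eq.trans (by simp)))
    (Nat.Coprime.coprime_dvd_right h3 (by simp)), h1, h3⟩

/-- `M` is a normal Hall subgroup of exponent dividing `n`, with quotient of exponent dividing
`e'`. -/
structure Hall (n e' : ℕ) (M : Subgroup G) : Prop where
  cop : n.Coprime e'
  ne : n * e' ≠ 0
  normal : M.Normal
  pow : ∀ x ∈ M, x ^ n = 1
  mem : ∀ g : G, g ^ e' ∈ M

omit [Fintype G] in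
theorem Hall.exp (h : Hall n e' M) (g : G) : g ^ (n * e') = 1 := by
  rw [mul_comm, pow_mul, h.pow _ (h.mem g)]

section

variable (he : e ≠ 0) (hG : ∀ g : G, g ^ e = 1)
include he hG

theorem extN_odd (h : Ab N M l) (hl : l.Prime) {s : ℕ} (hs : s.Coprime e) (hs1 : s ≡ 1 [MOD n])
    (hs2 : l ∣ s + 1) (h2 : l ≠ 2) (hθ : Ir N θ)
    (hi : ∀ y ∈ M, EqOn (cj y θ) θ N) (hf : FixN n e N θ) :
    ∃ χ, (Ir M χ ∧ (∀ y ∈ M, EqOn (cj y χ) χ M) ∧ FixN n e M χ) ∧ EqOn χ θ N := by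
  refine h.loop hl (fun N θ => Ir N θ ∧ (∀ y ∈ M, EqOn (cj y θ) θ N) ∧ FixN n e N θ) ?_
    N θ le_rfl h.1 ⟨hθ, hi, hf⟩
  rintro N₁ N₂ β θ₁ h1 h3 h4 hr hβ ⟨hθ, hi, hf⟩
  have hn₁ : Nm N₁ M := (h.mono h1 (h3.trans h4)).nm
  have hn₂ : Nm N₂ M := (h.mono (h1.trans h3) h4).nm
  obtain ⟨χ₀, hχ₀, he₀⟩ := hβ.exists_ext hl (hn₁.mono h3 h4) hr hθ fun y hy => hi y (h4 hy)
  have hpe : ∀ {χ t}, t.Coprime e → t ≡ 1 [MOD n] → EqOn χ θ₁ N₁ →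
      EqOn χ (pw t χ) N₁ := fun ht ht1 he' x hx =>
    (he' hx).trans ((hf _ ht ht1 hx).symm.trans (he' (N₁.pow_mem hx _)).symm)
  obtain ⟨j, -, hj⟩ := hβ.unique h3 hr hχ₀ (hχ₀.pw he hG hs) (hθ.congr he₀.symm) (hpe hs hs1 he₀)
  obtain ⟨k, hk⟩ := hl.odd_of_ne_two h2
  have uniq : ∀ {χ χ'}, Ir N₂ χ → Ir N₂ χ' → EqOn χ θ₁ N₁ → EqOn χ χ' N₁ →
      EqOn (pw s χ) χ N₂ → EqOn (pw s χ') χ' N₂ → EqOn χ' χ N₂ := by
    intro χ χ' hχ hχ' h5 h6 h7 h8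
    obtain ⟨i, -, hi⟩ := hβ.unique h3 hr hχ hχ' (hθ.congr h5.symm) h6
    have h9 : EqOn (tw β (2 * i) χ) χ N₂ := by
      intro x hx
      have h10 : β (x ^ s) ^ i * χ (x ^ s) = β x ^ i * χ x :=
        (hi (N₂.pow_mem hx s)).trans ((h8 hx).trans (hi hx).symm)
      have h11 : χ (x ^ s) = χ x := h7 hx
      have h12 : β x ^ ((s + 1) * i) = β x ^ 0 := hβ.pow_congr hx
        (Nat.modEq_zero_iff_dvd.mpr (hs2.mul_right i))
      rw [hβ.map_pow hx, h11] at h10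
      simp only [tw]
      calc β x ^ (2 * i) * χ x = β x ^ i * (β x ^ i * χ x) := by ring
        _ = β x ^ ((s + 1) * i) * χ x := by rw [← h10]; ring
        _ = χ x := by rw [h12]; simp
    have h10 := hβ.free hl h3 hr hχ (hθ.congr h5.symm) h9
    have h11 : l ∣ i := ((Nat.coprime_primes hl Nat.prime_two).mpr h2).dvd_of_dvd_mul_left h10
    intro x hx
    rw [← hi hx, tw, hβ.pow_congr hx (Nat.modEq_zero_iff_dvd.mpr h11)]; simp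
  have hχ := hβ.ir (j * (k + 1)) hχ₀
  have he₁ : EqOn (tw β (j * (k + 1)) χ₀) θ₁ N₁ := fun x hx => by
    simp [tw, (hβ.ker x (h3 hx)).mpr hx, he₀ hx]
  have hfix : EqOn (pw s (tw β (j * (k + 1)) χ₀)) (tw β (j * (k + 1)) χ₀) N₂ := by
    intro x hx
    have h5 : β x ^ j * χ₀ x = χ₀ (x ^ s) := hj hx
    simp only [pw, tw]
    rw [← h5, hβ.map_pow hx, ← pow_mul, ← mul_assoc, ← pow_add]
    congr 1
    refine hβ.pow_congr hx ?_
    obtain ⟨c, hc⟩ := hs2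
    apply Nat.ModEq.add_right_cancel' (j * (k + 1))
    have h6 : s * (j * (k + 1)) + j + j * (k + 1) = j + l * (c * (j * (k + 1))) := by
      rw [← mul_assoc l, ← hc]; ring
    have h7 : j * (k + 1) + j * (k + 1) = j + l * j := by rw [hk]; ring
    rw [h6, h7]
    simp [Nat.ModEq]
  refine ⟨_, ⟨hχ, fun y hy => ?_, fun t ht ht1 => ?_⟩, he₁⟩
  · refine uniq hχ (hχ.cj hn₂ hy) he₁ (cj_ext (N₂ := N₂) (hn₁.2 y hy) he₁ (hi y hy)) hfix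
      fun x hx => ?_
    have := hfix (hn₂.2 y hy x hx)
    simp only [pw, cj] at this ⊢
    rwa [conj_pow] at this
  · refine uniq hχ (hχ.pw he hG ht) he₁ (hpe ht ht1 he₁) hfix fun x hx => ?_
    have := hfix (N₂.pow_mem hx t)
    simp only [pw] at this ⊢
    rwa [← pow_mul, mul_comm t, pow_mul] at this

theorem extN_two (h : Ab N M 2) (hs : S ⊔ N = M) (hθ : Ir N θ)
    (hi : ∀ y ∈ M, EqOn (cj y θ) θ N) (hf : FixN n e N θ) (ho : Odd (mu (S ⊓ N) θ (fun _ => 1))) :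
    ∃ χ, (Ir M χ ∧ (∀ y ∈ M, EqOn (cj y χ) χ M) ∧ FixN n e M χ ∧
      Odd (mu (S ⊓ M) χ (fun _ => 1))) ∧ EqOn χ θ N := by
  have hl := Nat.prime_two
  refine h.loop hl (fun N θ => Ir N θ ∧ (∀ y ∈ M, EqOn (cj y θ) θ N) ∧ FixN n e N θ ∧
    Odd (mu (S ⊓ N) θ (fun _ => 1))) ?_ N θ le_rfl h.1 ⟨hθ, hi, hf, ho⟩
  rintro N₁ N₂ β θ₁ h1 h3 h4 hr hβ ⟨hθ, hi, hf, ho⟩
  have hn₁ : Nm N₁ M := (h.mono h1 (h3.trans h4)).nm
  have hn₂ : Nm N₂ M := (h.mono (h1.trans h3) h4).nm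
  have hS : S ≤ M := hs ▸ le_sup_left
  have hs₁ : S ⊔ N₁ = M := le_antisymm (sup_le hS (h3.trans h4)) (hs ▸ sup_le_sup_left h1 S)
  have hr' : (S ⊓ N₂ ⊓ N₁).relIndex (S ⊓ N₂) = 2 :=
    (rel_of_sup (hn₁.mono h3 h4) (inf_sup_of_sup hn₁ hs₁ h3 h4)).trans hr
  have hinf : S ⊓ N₂ ⊓ N₁ = S ⊓ N₁ := by rw [inf_assoc, inf_eq_right.mpr h3]
  have hsum : ∀ {χ}, Ir N₂ χ → EqOn χ θ₁ N₁ →
      Odd (mu (S ⊓ N₂) χ (fun _ => 1) + mu (S ⊓ N₂) (tw β 1 χ) (fun _ => 1)) := by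
    intro χ hχ h5
    have h6 := (hβ.inf S).ipH_sum inf_le_left hr' χ (fun _ => 1)
    have h8 : ipH (S ⊓ N₁) χ (fun _ => 1) = ipH (S ⊓ N₁) θ₁ (fun _ => 1) :=
      ipH_congr (fun x hx => h5 hx.2) (fun _ _ => rfl)
    rw [Finset.sum_range_succ, Finset.sum_range_one, show tw β 0 χ = χ from by ext; simp [tw],
      hinf, h8,
      (hθ.ch.mono inf_le_right).ipH_eq_mu (Ch.one _),
      (hχ.ch.mono inf_le_right).ipH_eq_mu (Ch.one _),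
      ((hβ.ch 1 hχ.ch).mono inf_le_right).ipH_eq_mu (Ch.one _)] at h6
    have h7 : mu (S ⊓ N₂) χ (fun _ => 1) + mu (S ⊓ N₂) (tw β 1 χ) (fun _ => 1) =
      mu (S ⊓ N₁) θ₁ (fun _ => 1) := by exact_mod_cast h6
    rwa [h7]
  have uniq : ∀ {χ χ'}, Ir N₂ χ → Ir N₂ χ' → EqOn χ θ₁ N₁ → EqOn χ χ' N₁ →
      mu (S ⊓ N₂) χ' (fun _ => 1) = mu (S ⊓ N₂) χ (fun _ => 1) → EqOn χ' χ N₂ := by
    intro χ χ' hχ hχ' h5 h6 h7
    obtain ⟨i, hi2, hi⟩ := hβ.unique h3 hr hχ hχ' (hθ.congr h5.symm) h6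
    interval_cases i
    · intro x hx
      rw [← hi hx]; simp [tw]
    · have h8 := hsum hχ h5
      have h9 : mu (S ⊓ N₂) (tw β 1 χ) (fun _ => 1) = mu (S ⊓ N₂) χ' (fun _ => 1) :=
        mu_congr (fun x hx => hi hx.2) (fun _ _ => rfl)
      rw [h9, h7, ← two_mul] at h8
      exact absurd h8 (by simp)
  obtain ⟨χ, hχ, he₁, ho'⟩ : ∃ χ, Ir N₂ χ ∧ EqOn χ θ₁ N₁ ∧ Odd (mu (S ⊓ N₂) χ (fun _ => 1)) := by
    obtain ⟨χ₀, hχ₀, he₀⟩ := hβ.exists_ext hl (hn₁.mono h3 h4) hr hθ fun y hy => hi y (h4 hy)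
    have := hsum hχ₀ he₀
    by_cases h5 : Odd (mu (S ⊓ N₂) χ₀ (fun _ => 1))
    · exact ⟨χ₀, hχ₀, he₀, h5⟩
    · refine ⟨tw β 1 χ₀, hβ.ir 1 hχ₀, fun x hx => ?_, ?_⟩
      · simp [tw, (hβ.ker x (h3 hx)).mpr hx, he₀ hx]
      · rw [Nat.odd_add] at this; grind
  refine ⟨χ, ⟨hχ, fun y hy => ?_, fun t ht ht1 => ?_, ho'⟩, he₁⟩
  · have h5 : S ⊔ N ≤ stabC hn₂ χ := by
      refine sup_le (fun z hz => ⟨hS hz, ?_⟩) ((h1.trans h3).trans (le_stabC hn₂ hχ.ch.cl))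
      refine uniq hχ (hχ.cj hn₂ (hS hz)) he₁
        (cj_ext (N₂ := N₂) (hn₁.2 z (hS hz)) he₁ (hi z (hS hz))) ?_
      unfold mu
      rw [← ipH_cj (N := S ⊓ N₂) (y := z) (fun x => ?_) χ (fun _ => 1)]
      · rfl
      · simp only [mem_inf, hn₂.mem_iff (hS hz)]
        rw [S.mul_mem_cancel_right (S.inv_mem hz), S.mul_mem_cancel_left hz]
    exact (h5 (hs ▸ hy)).2
  · refine uniq hχ (hχ.pw he hG ht) he₁ (fun x hx =>
      (he₁ hx).trans ((hf _ ht ht1 hx).symm.trans (he₁ (N₁.pow_mem hx _)).symm)) ?_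
    exact mu_pw (b := fun _ => 1) he hG ht (hχ.ch.mono inf_le_right) (Ch.one _)

end

/-- The invariant carried through the induction. -/
def GoodN (n e : ℕ) (M N : Subgroup G) (θ : G → ℂ) : Prop :=
  M ≤ N ∧ Ir N θ ∧ FixN n e N θ ∧ ∃ S, Syl 2 N S ∧ Odd (mu S θ (fun _ => 1))

theorem GoodN.step {P : Subgroup G} (hP : Hall n e' P) (h : Ab N M l) (hl : l.Prime) (hne : N ≠ M)
    (hθ : GoodN n (n * e') P N θ) (hi : ∀ y ∈ M, EqOn (cj y θ) θ N) :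
    ∃ χ, GoodN n (n * e') P M χ ∧ mu N χ θ ≠ 0 := by
  obtain ⟨h0, h1, h2, T, hT, hT'⟩ := hθ
  have fin : ∀ χ, EqOn χ θ N → mu N χ θ ≠ 0 := fun χ he' => by
    rw [mu_congr he' (fun _ _ => rfl), h1.mu_self]; exact one_ne_zero
  by_cases hl2 : l = 2
  · subst hl2
    obtain ⟨S, hS, rfl⟩ := hT.ext hl h.1
    obtain ⟨χ, ⟨h4, -, h5, h6⟩, h7⟩ := extN_two hP.ne hP.exp h (hS.sup hl h) h1 hi h2 hT'
    rw [inf_eq_left.mpr hS.1] at h6
    exact ⟨χ, ⟨h0.trans h.1, h4, h5, S, hS, h6⟩, fin χ h7⟩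
  · obtain ⟨s, hs, hs1, hs2⟩ := exists_sN hP.cop (right_ne_zero_of_mul hP.ne)
    have hle : l ∣ e' := by
      by_contra hc
      refine hne (le_antisymm h.1 fun x hx => ?_)
      obtain ⟨u, v, huv⟩ := Nat.isCoprime_iff_coprime.mpr ((Nat.Prime.coprime_iff_not_dvd hl).mpr hc)
      have : x = (x ^ l) ^ u * (x ^ e') ^ v := by
        rw [← zpow_natCast, ← zpow_natCast, ← zpow_mul, ← zpow_mul, ← zpow_add, mul_comm (l : ℤ),
          mul_comm (e' : ℤ), huv, zpow_one]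
      rw [this]
      exact N.mul_mem (N.zpow_mem (h.2.1 x hx) u) (N.zpow_mem (h0 (hP.mem x)) v)
    obtain ⟨χ, ⟨h4, -, h5⟩, h7⟩ := extN_odd hP.ne hP.exp h hl hs hs1 (hle.trans hs2) hl2 h1 hi h2
    obtain ⟨k, hk⟩ := h.rel hl
    refine ⟨χ, ⟨h0.trans h.1, h4, h5, T, hT.up Nat.prime_two h.1 fun hd => hl2 ?_, ?_⟩, fin χ h7⟩
    · exact ((Nat.prime_dvd_prime_iff_eq Nat.prime_two hl).mp
        (Nat.prime_two.dvd_of_dvd_pow (hk ▸ hd))).symm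
    · rwa [mu_congr (h7.mono hT.1) (fun _ _ => rfl)]

theorem GoodN.exists [Group.IsSolvable G] {P : Subgroup G} (hP : Hall n e' P) (h : Nm N H)
    (hθ : GoodN n (n * e') P N θ) : ∃ χ, Ir H χ ∧ FixN n (n * e') H χ ∧ mu N χ θ ≠ 0 := by
  induction hn : 2 * Nat.card H - Nat.card N using Nat.strong_induction_on generalizing N H θ with
  | _ k ih =>
  have h1 := card_le_of_le h.1
  by_cases hT : stabC h θ = H
  · by_cases hN : N = H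
    · subst hN
      exact ⟨θ, hθ.2.1, hθ.2.2.1, by rw [hθ.2.1.mu_self]; exact one_ne_zero⟩
    obtain ⟨l, M, hl, hM, hne, hab⟩ := exists_ab h hN
    obtain ⟨ψ, hψ, h2⟩ := hθ.step hP hab hl hne fun y hy => (hT.ge (hM.1 hy)).2
    have h3 := card_le_of_le hM.1
    have h4 : Nat.card N < Nat.card M :=
      lt_of_not_ge fun h5 => hne (eq_of_le_of_card_ge hab.1 h5)
    obtain ⟨χ, hχ, h5, h6⟩ := ih _ (by omega) hM hψ rfl
    refine ⟨χ, hχ, h5, ?_⟩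
    have := (hχ.ch.mono hM.1).mu_le hab.1 hθ.2.1.ch hψ.2.1
    exact (lt_of_lt_of_le (Nat.pos_of_ne_zero (mul_ne_zero h6 h2)) this).ne'
  · have h2 := le_stabC h hθ.2.1.ch.cl
    have h3 := card_le_of_le h2
    have h4 : Nat.card (stabC h θ) < Nat.card H :=
      lt_of_not_ge fun h5 => hT (eq_of_le_of_card_ge (stabC_le h θ) h5)
    obtain ⟨ψ, hψ, h5, h6⟩ := ih _ (by omega) (h.mono h2 (stabC_le h θ)) hθ rfl
    obtain ⟨h7, h8⟩ := clifford_ind h hθ.2.1 hψ h6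
    refine ⟨_, h7, fun s hs hs1 x _ => ?_, h8⟩
    simp only [pw, ind]
    congr 1
    refine Finset.sum_congr rfl fun y _ => ?_
    rw [← conj_pow, pow_mem_iff' hP.exp hs]
    split_ifs with h9
    · exact h5 s hs hs1 h9.2
    · rfl

/-- Every irreducible character shares a constituent on `M` with an `n`-cyclotomic one. -/
theorem Hall.cover [Group.IsSolvable G] (hM : Hall n e' M) (ho : Odd n) (hχ : χ ∈ Irr G) :
    ∃ ψ ∈ Irr G, FixN n (n * e') ⊤ ψ ∧ mu M χ ψ ≠ 0 := by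
  have := hM.normal
  obtain ⟨θ, hθ, h1⟩ := exists_under (le_top : M ≤ ⊤) (ir_top.mpr hχ)
  have h2 : ¬ 2 ∣ Nat.card M := fun h2 => by
    obtain ⟨x, hx⟩ := exists_prime_orderOf_dvd_card' 2 h2
    have h3 : orderOf x ∣ n := orderOf_dvd_of_pow_eq_one (Subtype.ext (hM.pow x x.2))
    exact (Nat.not_even_iff_odd.mpr ho) (even_iff_two_dvd.mpr (hx ▸ h3))
  obtain ⟨d, hd, hd'⟩ := hθ.deg
  obtain ⟨ψ, h3, h4, h5⟩ := GoodN.exists hM (nm_top M) ⟨le_rfl, hθ, fun s _ hs x hx => by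
    simp only [pw]
    rw [pow_eq_pow_mod s (hM.pow x hx), hs, ← pow_eq_pow_mod 1 (hM.pow x hx), pow_one],
    ⊥, ⟨bot_le, IsPGroup.of_bot, by simpa using h2⟩, by
      rw [mu_of_ipH (n := d) (by simp [ipH, hd])]
      exact Nat.not_even_iff_odd.mp fun h6 => h2 (hd' 2 Nat.prime_two (even_iff_two_dvd.mp h6))⟩
  refine ⟨ψ, ir_top.mp h3, h4, ?_⟩
  have := ((ir_top.mpr hχ).ch.mono le_top).mu_le le_rfl (h3.ch.mono le_top) hθ
  rw [mu_comm M θ] at this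
  exact (lt_of_lt_of_le (Nat.pos_of_ne_zero (mul_ne_zero h1 h5)) this).ne'

end Pool.Agent.P.MP_530519_al
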