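import Pool.Agent.P.MP_530519_al.SS.Span

/-! A weighted count of the `p`-cyclotomic characters. -/

namespace Pool.Agent.P.MP_530519_al

open Set Subgroup
open scoped Classical

variable {G : Type} [Group G] [Fintype G] {m e p c : ℕ} {χ : G → ℂ}

/-- The weight of a character with a Galois orbit of length `d`. -/
noncomputable def wf (p d : ℕ) : ℝ := min 1 ((p : ℝ) ^ 2 / d)

theorem wf_nonneg (p d : ℕ) : 0 ≤ wf p d := le_min zero_le_one (by positivity)

/-- Weighted number of `p`-cyclotomic characters. -/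
noncomputable def WW (p e c : ℕ) (G : Type) [Group G] [Fintype G] : ℝ :=
  ∑ χ ∈ XS p e G, wf p (per c χ)

theorem WW_nonneg : 0 ≤ WW p e c G := Finset.sum_nonneg fun _ _ => wf_nonneg _ _

theorem wt_le_WW (hp : p.Prime) : wt p e c G ≤ WW p e c G := by
  refine Finset.sum_le_sum fun χ _ => le_min (Nat.cast_inv_le_one _) ?_
  rw [inv_eq_one_div]
  gcongr
  exact one_le_pow₀ (by exact_mod_cast hp.pos)

theorem totient_dvd (hp : p.Prime) (k : ℕ) : (p ^ k).totient ∣ (p - 1) * p ^ k := by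
  rw [mul_comm, ← Nat.totient_prime_pow_succ hp]
  exact Nat.totient_dvd_of_dvd (pow_dvd_pow _ k.le_succ)

theorem exists_mul_pow (hp : p.Prime) {d k : ℕ} (h : d ∣ (p - 1) * p ^ k) :
    ∃ a ∈ (p - 1).divisors, ∃ i ≤ k, d = a * p ^ i := by
  obtain ⟨a, b, h1, h2, rfl⟩ := (Nat.dvd_mul ..).mp h
  obtain ⟨i, hi, rfl⟩ := (Nat.dvd_prime_pow hp).mp h2
  exact ⟨a, Nat.mem_divisors.mpr ⟨h1, by have := hp.two_le; omega⟩, i, hi, rfl⟩

theorem Hyp.WW_le (h : Hyp m G) (hp : p.Prime) (he : e ≠ 0) (hG : ∀ g : G, g ^ e = 1)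
    (hc : Gen p e c) : WW p e c G ≤ 32 * m * (p - 1).divisors.card := by
  set k := e.factorization p
  calc WW p e c G ≤ ∑ χ ∈ XS p e G, ∑ x ∈ (p - 1).divisors ×ˢ Finset.range (k + 1),
        if per c χ = x.1 * p ^ x.2 then 4 * (1 / 2 : ℝ) ^ x.2 else 0 := by
        refine Finset.sum_le_sum fun χ hχ => ?_
        have h1 : per c χ ∣ (p ^ k).totient := Function.IsPeriodicPt.minimalPeriod_dvd (by
          rw [Function.IsPeriodicPt, Function.IsFixedPt, iterate_pw]
          exact funext fun x => (mem_XS.mp hχ).2 _ (hc.1.pow_left _)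
            (Nat.ModEq.pow_totient (hc.1.coprime_dvd_right (Nat.ordProj_dvd e p))) (mem_top x))
        obtain ⟨a, ha, i, hi, h2⟩ := exists_mul_pow hp (h1.trans (totient_dvd hp k))
        refine le_trans ?_ (Finset.single_le_sum (a := (a, i)) (fun x _ => by positivity)
          (Finset.mem_product.mpr ⟨ha, Finset.mem_range.mpr (by omega)⟩))
        rw [if_pos h2, h2]
        rcases Nat.lt_or_ge i 2 with h3 | h3
        · refine (min_le_left _ _).trans ?_
          interval_cases i <;> norm_num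
        · obtain ⟨j, rfl⟩ := Nat.exists_eq_add_of_le h3
          refine (min_le_right _ _).trans ?_
          have h4 : (1 : ℝ) ≤ a := by exact_mod_cast Nat.pos_of_mem_divisors ha
          have h5 : (2 : ℝ) ≤ p := by exact_mod_cast hp.two_le
          calc _ = 1 / (a * (p : ℝ) ^ j) := by push_cast; field_simp; ring
            _ ≤ 1 / (1 * 2 ^ j) := by gcongr
            _ = _ := by rw [pow_add, one_div_pow, one_div_pow]; field_simp; norm_num
    _ ≤ ∑ x ∈ (p - 1).divisors ×ˢ Finset.range (k + 1), 16 * m * (1 / 2 : ℝ) ^ x.2 := by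
        rw [Finset.sum_comm]
        refine Finset.sum_le_sum fun x _ => ?_
        rw [← Finset.sum_filter, Finset.sum_const, nsmul_eq_mul]
        have h1 : (((XS p e G).filter fun χ => per c χ = x.1 * p ^ x.2).card : ℝ) ≤ 4 * m := by
          exact_mod_cast (h.card_per he hG hc).2 _
        calc _ ≤ 4 * m * (4 * (1 / 2 : ℝ) ^ x.2) := by gcongr
          _ = _ := by ring
    _ ≤ _ := by
        rw [Finset.sum_product]
        simp only [← Finset.mul_sum, Finset.sum_const, nsmul_eq_mul]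
        calc _ ≤ 16 * m * ((p - 1).divisors.card * 2 : ℝ) := by
              gcongr; exact sum_geometric_two_le _
          _ = _ := by ring

theorem WW_step {Q : Type} [Group Q] [Fintype Q] (f : G →* Q) (hf : Function.Surjective f)
    {Z : Subgroup G} (hZ : f.ker = Z) :
    WW p e c Q + ∑ χ ∈ (XS p e G).filter (¬ Iv Z ·), wf p (per c χ) ≤ WW p e c G := by
  have hinj : Function.Injective fun ψ : Q → ℂ => ψ ∘ f := hf.injective_comp_right
  have hper : ∀ ψ : Q → ℂ, per c (ψ ∘ f) = per c ψ := fun ψ => by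
    unfold per
    rw [Function.minimalPeriod_eq_minimalPeriod_iff]
    intro n
    simp only [Function.IsPeriodicPt, Function.IsFixedPt, iterate_pw]
    rw [← hinj.eq_iff (a := pw (c ^ n) ψ)]
    have : pw (c ^ n) (ψ ∘ f) = pw (c ^ n) ψ ∘ f := by ext; simp [pw]
    rw [this]
  have h1 : WW p e c Q = ∑ χ ∈ (XS p e Q).image (fun ψ => ψ ∘ f), wf p (per c χ) := by
    rw [Finset.sum_image fun _ _ _ _ h => hinj h]
    simp only [hper, WW]
  rw [h1, WW, ← Finset.sum_filter_add_sum_filter_not (XS p e G) (Iv Z)]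
  refine add_le_add_left (Finset.sum_le_sum_of_subset_of_nonneg (fun χ hχ => ?_)
    fun _ _ _ => wf_nonneg _ _) _
  obtain ⟨ψ, hψ, rfl⟩ := Finset.mem_image.mp hχ
  rw [Finset.mem_filter, mem_XS]
  rw [mem_XS] at hψ
  refine ⟨⟨irr_comp f hf hψ.1, fun s h1 h2 x _ => ?_⟩, fun g x hx => ?_⟩
  · have := hψ.2 s h1 h2 (mem_top (f x))
    simpa [pw] using this
  · simp [show f x = 1 from (hZ ▸ hx : x ∈ f.ker)]

theorem WW_layer {Q : Type} [Group Q] [Fintype Q] (f : G →* Q) (hf : Function.Surjective f)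
    {Z : Subgroup G} (hZ : f.ker = Z) (he : e ≠ 0) (hG : ∀ g : G, g ^ e = 1) (hc : c.Coprime e) :
    WW p e c Q + min (((XS p e G).filter (¬ Iv Z ·)).card : ℝ) (p ^ 2) ≤ WW p e c G := by
  refine le_trans (add_le_add_right ?_ _) (WW_step f hf hZ)
  by_cases h : ∀ χ ∈ (XS p e G).filter (¬ Iv Z ·), per c χ ≤ p ^ 2 ∧ per c χ ≠ 0
  · refine (min_le_left _ _).trans (le_of_eq ?_)
    rw [Finset.card_eq_sum_ones, Nat.cast_sum]
    refine Finset.sum_congr rfl fun χ hχ => Nat.cast_one.trans (min_eq_left ?_).symm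
    rw [one_le_div (by exact_mod_cast Nat.pos_of_ne_zero (h χ hχ).2)]
    exact_mod_cast (h χ hχ).1
  push Not at h
  obtain ⟨χ, hχ, h1⟩ := h
  obtain ⟨hχ0, hχ3⟩ := Finset.mem_filter.mp hχ
  obtain ⟨hχ1, hχ2⟩ := mem_XS.mp hχ0
  have h2 : 0 < per c χ := Function.IsPeriodicPt.minimalPeriod_pos
    (Nat.totient_pos.mpr (Nat.pos_of_ne_zero he)) (by
      rw [Function.IsPeriodicPt, Function.IsFixedPt, iterate_pw]
      funext x
      rw [pw, pow_eq_pow_mod _ (hG x), Nat.ModEq.pow_totient hc, ← pow_eq_pow_mod _ (hG x), pow_one])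
  have h3 : p ^ 2 < per c χ := lt_of_not_ge fun h4 => h2.ne' (h1 h4)
  refine (min_le_right _ _).trans (le_trans (le_of_eq ?_) (Finset.sum_le_sum_of_subset_of_nonneg
    (s := (Finset.range (per c χ)).image fun j => (pw c)^[j] χ) ?_ fun _ _ _ => wf_nonneg _ _))
  · have h4 : (0 : ℝ) < per c χ := by exact_mod_cast h2
    rw [Finset.sum_image, Finset.sum_congr rfl (g := fun _ => (p : ℝ) ^ 2 / per c χ)]
    · simp only [Finset.sum_const, Finset.card_range, nsmul_eq_mul]
      field_simp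
    · intro j _
      unfold per
      rw [Function.minimalPeriod_apply_iterate (Function.minimalPeriod_pos_iff_mem_periodicPts.mp h2)]
      exact min_eq_right ((div_le_one h4).mpr (by exact_mod_cast h3.le))
    · intro i hi j hj hij
      exact Function.iterate_injOn_Iio_minimalPeriod (by simpa [per] using hi)
        (by simpa [per] using hj) hij
  · intro ψ hψ
    obtain ⟨j, -, rfl⟩ := Finset.mem_image.mp hψ
    rw [iterate_pw, Finset.mem_filter, mem_XS, iv_pw he hG (hc.pow_left j) hχ1]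
    refine ⟨⟨irr_pow hχ1 he hG (hc.pow_left j), fun s h4 h5 x _ => ?_⟩, hχ3⟩
    have := hχ2 s h4 h5 (mem_top (x ^ c ^ j))
    simp only [pw] at this ⊢
    rwa [← pow_mul, mul_comm, pow_mul] at this

theorem Hyp.card_comm (h : Hyp m G) (he : e ≠ 0) (hG : ∀ g : G, g ^ e = 1)
    (hc : ∀ a b : G, a * b = b * a) : Nat.card G ≤ m * e.divisors.card := by
  have : NeZero e := ⟨he⟩
  letI := galAct hG
  have h1 : Nat.card G = (IF G).card := by
    have := sum_sq_deg (G := G)
    rw [Finset.sum_congr rfl (g := fun _ => 1)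
      fun χ hχ => by simp [(irr_comm hc (mem_IF.mp hχ)).1]] at this
    simpa using this.symm
  have h2 : ∀ χ ∈ Irr G, ∀ s, pw s χ = χ ^ s := fun χ hχ s => by
    funext x
    obtain ⟨h3, h4⟩ := irr_comm hc hχ
    induction s with
    | zero => simpa [pw] using h3
    | succ s ih => rw [pw] at ih ⊢; rw [pow_succ, h4, ih, pow_succ]; rfl
  have h3 : ∀ χ ∈ Irr G, χ ^ e = 1 := fun χ hχ => by
    rw [← h2 χ hχ]
    funext x
    simp [pw, hG, (irr_comm hc hχ).1]
  have h4 : ∀ χ ∈ Irr G, ∀ u : (ZMod e)ˣ, u • χ = χ ↔ (u : ZMod e).val ≡ 1 [MOD orderOf χ] :=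
    fun χ hχ u => by
      rw [← (isOfFinOrder_iff_pow_eq_one.mpr
        ⟨e, Nat.pos_of_ne_zero he, h3 χ hχ⟩).pow_eq_pow_iff_modEq, pow_one, ← h2 χ hχ]
      rfl
  rw [h1]
  refine Finset.card_le_mul_card_image_of_maps_to (f := orderOf) (fun χ hχ =>
    Nat.mem_divisors.mpr ⟨orderOf_dvd_of_pow_eq_one (h3 χ (mem_IF.mp hχ)), he⟩) m fun d _ => ?_
  rcases Finset.eq_empty_or_nonempty ((IF G).filter fun χ => orderOf χ = d) with h0 | ⟨ψ, hψ⟩
  · simp [h0]
  refine le_trans ?_ (h.stab hG (MulAction.stabilizer (ZMod e)ˣ ψ))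
  rw [← Set.ncard_coe_finset]
  refine Set.ncard_le_ncard (fun χ hχ => ?_) (irr_finite.subset fun _ h => h.1)
  simp only [Finset.coe_filter, Finset.mem_filter, Set.mem_ofPred_eq, mem_IF] at hχ hψ
  refine ⟨hχ.1, Subgroup.ext fun u => ?_⟩
  simp only [MulAction.mem_stabilizer_iff, h4 χ hχ.1, h4 ψ hψ.1, hχ.2, hψ.2]

/-- The common kernel of the characters with values in the field with `p` elements. -/
def KK (p : ℕ) (G : Type) [Group G] : Subgroup G := ⨅ φ : G →* (ZMod p)ˣ, φ.ker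

omit [Fintype G] in
theorem mem_KK {g : G} : g ∈ KK p G ↔ ∀ φ : G →* (ZMod p)ˣ, φ g = 1 := by simp [KK]

instance : (KK p G).Normal := ⟨fun x hx g => mem_KK.mpr fun φ => by simp [mem_KK.mp hx φ]⟩

theorem Hyp.index_KK (h : Hyp m G) (hp : p.Prime) :
    (KK p G).index ≤ m * (p - 1).divisors.card := by
  have := Fact.mk hp
  have : Fintype (G ⧸ KK p G) := Fintype.ofFinite _
  have hπ := QuotientGroup.mk'_surjective (KK p G)
  refine (h.of_surj _ hπ).card_comm (by have := hp.two_le; omega) (fun g => ?_) fun a b => ?_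
  · obtain ⟨g, rfl⟩ := hπ g
    rw [← map_pow, QuotientGroup.mk'_apply, QuotientGroup.eq_one_iff, mem_KK]
    intro φ
    rw [map_pow, ← ZMod.card_units p, pow_card_eq_one]
  · obtain ⟨a, rfl⟩ := hπ a
    obtain ⟨b, rfl⟩ := hπ b
    rw [← map_mul, ← map_mul, QuotientGroup.mk'_apply, QuotientGroup.mk'_apply, QuotientGroup.eq,
      mem_KK]
    intro φ
    rw [map_mul, map_inv, map_mul, map_mul, mul_comm (φ b), inv_mul_cancel]

end Pool.Agent.P.MP_530519_al
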