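import Pool.Agent.P.MP_530519_al.SS.Struct
import Pool.Agent.P.MP_530519_al.SS.Wt

/-! The weighted count for groups with a normal Sylow subgroup with chief factors of order `p`. -/

namespace Pool.Agent.P.MP_530519_al

open Subgroup
open scoped Classical

variable {G : Type} [Group G] {n e' u p : ℕ} {P Z : Subgroup G}

/-- The centraliser of `t` in `P`. -/
def CC (P : Subgroup G) (t : G) : Subgroup G := P ⊓ centralizer {t}

theorem mem_CC {t x : G} : x ∈ CC P t ↔ x ∈ P ∧ x * t = t * x := by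
  simp [CC, mem_centralizer_singleton_iff]

theorem Hall.map {Q : Type} [Group Q] (h : Hall n e' P) (f : G →* Q) (hf : Function.Surjective f) :
    Hall n e' (P.map f) :=
  ⟨h.cop, h.ne, h.normal.map f hf, by rintro _ ⟨x, hx, rfl⟩; rw [← map_pow, h.pow x hx, map_one],
    fun g => by obtain ⟨g, rfl⟩ := hf g; exact ⟨_, h.mem g, map_pow ..⟩⟩

variable [Fintype G]

theorem card_IF : (IF G).card = (Irr G).ncard := (Set.ncard_eq_toFinset_card _ _).symm

theorem cp_eq_sum (hP : Hall n e' P) (h0 : n ∣ u) (h1 : u ≡ 1 [MOD e']) :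
    cp P = ∑ g : G, (Irr (CC P (g ^ u))).ncard := by
  rw [cp, ← Finset.sum_fiberwise Finset.univ fun g : G => g ^ u,
    ← Finset.sum_fiberwise Finset.univ (fun g : G => g ^ u) fun g => (Irr (CC P (g ^ u))).ncard]
  refine Finset.sum_congr rfl fun t _ => ?_
  rcases Finset.eq_empty_or_nonempty (Finset.univ.filter fun g : G => g ^ u = t) with h | ⟨g₀, h⟩
  · simp [h]
  have ht : t ^ u = t := by
    rw [← (Finset.mem_filter.mp h).2, ← pow_mul]
    have h2 : u * u ≡ u * 1 [MOD n * e'] :=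
      (Nat.modEq_and_modEq_iff_modEq_mul hP.cop).mp ⟨(Nat.modEq_zero_iff_dvd.mpr
        (h0.mul_right _)).trans (Nat.modEq_zero_iff_dvd.mpr (h0.mul_right _)).symm, h1.mul_left u⟩
    rw [pow_eq_pow_mod _ (hP.exp g₀), h2, ← pow_eq_pow_mod _ (hP.exp g₀), mul_one]
  have h3 : ∀ y ∈ CC P t, (t * y) ^ u = t := fun y hy => by
    obtain ⟨j, rfl⟩ := h0
    rw [Commute.mul_pow (mem_CC.mp hy).2.symm, ht, pow_mul y, hP.pow y (mem_CC.mp hy).1]; simp
  have key : ∀ F : G → ℕ, ∑ g with g ^ u = t, F g = ∑ y : CC P t, F (t * y) := fun F => by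
    refine (Finset.sum_bij (fun (y : CC P t) _ => t * y) (fun y _ => by simp [h3 y y.2])
      (fun y _ z _ h => Subtype.ext (mul_left_cancel h)) (fun g hg => ?_) fun _ _ => rfl).symm
    obtain rfl := (Finset.mem_filter.mp hg).2
    refine ⟨⟨(g ^ u)⁻¹ * g, mem_CC.mpr ⟨?_, by group⟩⟩, Finset.mem_univ _, by simp⟩
    have := hP.normal
    have h4 : (g : G ⧸ P) ^ e' = 1 := (QuotientGroup.eq_one_iff _).mpr (hP.mem g)
    rw [← QuotientGroup.eq, QuotientGroup.mk_pow, pow_eq_pow_mod _ h4, h1, ← pow_eq_pow_mod _ h4,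
      pow_one]
  rw [key, key, Finset.sum_congr rfl (s₂ := Finset.univ)
    (f := fun y : CC P t => (Irr (CC P ((t * y) ^ u))).ncard)
    (g := fun _ => (Irr (CC P t)).ncard) fun y _ => by rw [h3 y y.2]]
  rw [Finset.sum_const, Finset.card_univ, smul_eq_mul, ← Nat.card_eq_fintype_card, ← card_IF,
    ← cp_top, cp]
  refine Finset.sum_congr rfl fun y _ => ?_
  simp only [mem_top, true_and, Subtype.ext_iff, coe_mul]
  rw [← Finset.sum_subtype (p := (· ∈ CC P t)) (Finset.univ.filter (· ∈ CC P t)) (by simp)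
    (fun x => if y * x = x * y then 1 else 0), Finset.sum_filter]
  refine Finset.sum_congr rfl fun x _ => ?_
  rw [← ite_and]
  refine if_congr ⟨fun h4 => ?_, fun h4 => ⟨(mem_CC.mp h4.1).1, ?_⟩⟩ rfl rfl
  · have h5 : t * x = x * t := by simpa [h3 y y.2] using (Commute.pow_left h4.2 u).eq
    refine ⟨mem_CC.mpr ⟨h4.1, h5.symm⟩, mul_left_cancel (a := t) ?_⟩
    rw [← mul_assoc, h4.2, ← mul_assoc, ← mul_assoc, h5]
  · rw [mul_assoc, h4.2, ← mul_assoc, ← (mem_CC.mp h4.1).2, mul_assoc]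

theorem layer {Q : Type} [Group Q] (hP : Hall n e' P) (hp : p.Prime) (f : G →* Q)
    (hZ : f.ker = Z) (hZP : Z ≤ P) (hc : Nat.card Z = p) {t : G} (ht : t ^ e' = 1) :
    ∃ φ : CC P t →* CC (P.map f) (f t), Function.Surjective φ ∧
      Nat.card (Z.subgroupOf (CC P t)) * Nat.card (CC (P.map f) (f t)) = Nat.card (CC P t) := by
  subst hZ
  have := Fact.mk hp
  let φ : CC P t →* CC (P.map f) (f t) := (f.comp (CC P t).subtype).codRestrict _ fun x =>
    mem_CC.mpr ⟨mem_map_of_mem f (mem_CC.mp x.2).1, by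
      simpa using congrArg f (mem_CC.mp x.2).2⟩
  have hφ : Function.Surjective φ := by
    rintro ⟨y, hy⟩
    obtain ⟨⟨x, hx, rfl⟩, h1⟩ := mem_CC.mp hy
    have h2 : x⁻¹ * (t * x * t⁻¹) ∈ f.ker := by simp [← h1]
    suffices h : ∃ w ∈ f.ker, x * w * t = t * (x * w) by
      obtain ⟨w, hw, h⟩ := h
      exact ⟨⟨x * w, mem_CC.mpr ⟨P.mul_mem hx (hZP hw), h⟩⟩,
        Subtype.ext (by simp [φ, show f w = 1 from hw])⟩
    have : Fact (Nat.card f.ker).Prime := hc ▸ this
    rcases ((centralizer {t}).subgroupOf f.ker).eq_bot_or_eq_top_of_prime_card with h3 | h3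
    · let ρ : f.ker → f.ker := fun w => ⟨t * w * t⁻¹, (f.normal_ker).conj_mem _ w.2 t⟩ * w⁻¹
      have h4 : Function.Injective ρ := fun w w' h => by
        have h5 : t * w * t⁻¹ * (w : G)⁻¹ = t * w' * t⁻¹ * (w' : G)⁻¹ := congrArg Subtype.val h
        have h6 : w'⁻¹ * w ∈ (centralizer {t}).subgroupOf f.ker := by
          rw [mem_subgroupOf, mem_centralizer_singleton_iff]
          calc ((w'⁻¹ * w : f.ker) : G) * t =
              (w' : G)⁻¹ * (t * w * t⁻¹ * (w : G)⁻¹)⁻¹ * (t * w) := by simp [mul_assoc]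
            _ = _ := by rw [h5]; simp [mul_assoc]
        rw [h3, mem_bot, inv_mul_eq_one] at h6
        exact h6.symm
      obtain ⟨w, hw⟩ := Finite.injective_iff_surjective.mp h4 ⟨_, h2⟩⁻¹
      have h5 : t * w * t⁻¹ * (w : G)⁻¹ = (x⁻¹ * (t * x * t⁻¹))⁻¹ := congrArg Subtype.val hw
      refine ⟨w, w.2, ?_⟩
      calc x * w * t = t * x * t⁻¹ * (x⁻¹ * (t * x * t⁻¹))⁻¹ * w * t := by group
        _ = _ := by rw [← h5]; group
    · set z := x⁻¹ * (t * x * t⁻¹) with hz
      have h4 : z * t = t * z := mem_centralizer_singleton_iff.mp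
        (mem_subgroupOf.mp (h3 ▸ mem_top (⟨z, h2⟩ : f.ker)))
      have h5 : ∀ i : ℕ, t ^ i * x = x * z ^ i * t ^ i := fun i => by
        induction i with
        | zero => simp
        | succ i ih =>
          calc t ^ (i + 1) * x = t * (t ^ i * x) := by rw [pow_succ', mul_assoc]
            _ = x * z * (t * z ^ i) * t ^ i := by rw [ih, hz]; group
            _ = _ := by rw [← (Commute.pow_left h4 i).eq]; group
      have h6 := h5 e'
      rw [ht, one_mul, mul_one, left_eq_mul] at h6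
      have h7 : z = 1 := (pow_eq_one_iff_of_coprime hP.cop).mp ⟨hP.pow z (hZP h2), h6⟩
      refine ⟨1, one_mem _, ?_⟩
      simpa [h7] using (h5 1).symm
  refine ⟨φ, hφ, ?_⟩
  rw [card_eq_mul φ hφ, show φ.ker = f.ker.subgroupOf (CC P t) from by
    ext x; simp [φ, mem_subgroupOf]]

/-- The exponent of the order of the centraliser in `P` of the `p'`-part of `g`. -/
noncomputable def rr (p u : ℕ) (P : Subgroup G) (g : G) : ℕ :=
  (Nat.card (CC P (g ^ u))).factorization p

theorem layer_rr {Q : Type} [Group Q] [Fintype Q] {k : ℕ} (hP : Hall (p ^ k) e' P) (hp : p.Prime)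
    (h0 : p ^ k ∣ u) (f : G →* Q) (hf : Function.Surjective f) (hZ : f.ker = Z) (hZP : Z ≤ P)
    (hc : Nat.card Z = p) (g : G) :
    (Irr (CC (P.map f) (f g ^ u))).ncard + ps p (rr p u P g) ≤
      (Irr (CC P (g ^ u))).ncard + ps p (rr p u (P.map f) (f g)) ∧
    ps p (rr p u P g) ≤ ps p (rr p u (P.map f) (f g)) + p ^ 2 ∧
    rr p u (P.map f) (f g) ≤ rr p u P g ∧
    ((∀ z ∈ Z, g ^ u * z = z * g ^ u) → rr p u P g = rr p u (P.map f) (f g) + 1) := by
  have := Fact.mk hp
  obtain ⟨φ, hφ, h1⟩ := layer hP hp f hZ hZP hc (t := g ^ u) (by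
    obtain ⟨j, rfl⟩ := h0
    rw [← pow_mul, mul_right_comm, pow_mul, hP.exp, one_pow])
  unfold rr
  rw [← map_pow]
  obtain ⟨r, hr⟩ := IsPGroup.iff_card.mp (show IsPGroup p (CC (P.map f) (f (g ^ u))) from
    fun x => ⟨k, Subtype.ext ((hP.map f hf).pow x (mem_CC.mp x.2).1)⟩)
  have h2 : Nat.card (Z.subgroupOf (CC P (g ^ u))) ∣ p :=
    hc ▸ card_comap_dvd_of_injective _ _ (subtype_injective _)
  have h3 : (∀ z ∈ Z, g ^ u * z = z * g ^ u) → Nat.card (Z.subgroupOf (CC P (g ^ u))) = p :=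
    fun h => hc ▸ Nat.card_congr (subgroupOfEquivOfLe
      fun z hz => mem_CC.mpr ⟨hZP hz, (h z hz).symm⟩).toEquiv
  rw [← card_IF, ← card_IF]
  rcases (Nat.dvd_prime hp).mp h2 with h4 | h4
  · rw [← h1, h4, one_mul]
    exact ⟨Nat.add_le_add_right (card_IF_le φ hφ) _, by omega, le_rfl,
      fun h => absurd (h4 ▸ h3 h) hp.one_lt.ne⟩
  · rw [h4, hr, ← pow_succ'] at h1
    have h5 := hall_step φ hφ hp h1.symm hr
    have h6 : dl p r ≤ p ^ 2 := by
      unfold dl
      split_ifs <;> nlinarith [Nat.sub_le p 1]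
    rw [← h1, hr, hp.factorization_pow, hp.factorization_pow]
    simp only [Finsupp.single_eq_same, ps, Finset.sum_range_succ]
    exact ⟨by omega, by omega, by omega, fun _ => trivial⟩

theorem core {k c : ℕ} (hp : p.Prime) (h2 : p ≠ 2) (hk : (p ^ k * e').factorization p = k)
    (h0 : p ^ k ∣ u) (h1 : u ≡ 1 [MOD e']) (hc : c.Coprime (p ^ k * e')) (N : ℕ) :
    ∀ (G : Type) [Group G] [Fintype G] [Group.IsSolvable G], Nat.card G = N → PS p G →
      ∀ P : Subgroup G, Hall (p ^ k) e' P →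
      ((∑ g, ps p (rr p u P g) : ℕ) : ℝ) ≤ Nat.card G * WW p (p ^ k * e') c G ∧
      (Nat.card G).factorization p * Nat.card G ≤ (p - 1) * ∑ g, rr p u P g ∧
      ∀ g ∈ KK p G, rr p u P g = (Nat.card G).factorization p := by
  induction N using Nat.strong_induction_on with
  | _ N ih =>
  intro G _ _ _ hn h P hP
  have := hP.normal
  have := Fact.mk hp
  by_cases hb : P = ⊥
  · subst hb
    have h3 : ∀ g : G, rr p u ⊥ g = 0 := fun g => by simp [rr, CC]
    have h4 : (Nat.card G).factorization p = 0 := by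
      rw [← card_top]
      refine Nat.factorization_eq_zero_of_not_dvd (not_dvd_card hp fun x _ =>
        ⟨e', fun h5 => ?_, hP.mem x⟩)
      have h6 := hp.factorization_pos_of_dvd (right_ne_zero_of_mul hP.ne) h5
      rw [Nat.factorization_mul (left_ne_zero_of_mul hP.ne) (right_ne_zero_of_mul hP.ne),
        hp.factorization_pow] at hk
      simp only [Finsupp.add_apply, Finsupp.single_eq_same] at hk
      omega
    simp only [h3, h4, ps, Finset.range_zero, Finset.sum_empty, Finset.sum_const_zero]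
    exact ⟨by simpa using mul_nonneg (Nat.cast_nonneg _) (WW_nonneg (G := G)), by simp, by simp⟩
  obtain ⟨Z, l, hZP, hZ⟩ := exists_minN P hb
  have := hZ.normal
  have : Fintype (G ⧸ Z) := Fintype.ofFinite _
  have hf := QuotientGroup.mk'_surjective Z
  have hker := QuotientGroup.ker_mk' Z
  have hZc : Nat.card Z = p := (h.min hZ).resolve_right (not_not.mpr ((show IsPGroup p Z from
    fun x => ⟨k, Subtype.ext (hP.pow x (hZP x.2))⟩).card_eq_or_dvd.resolve_left
      fun h => hZ.ne_bot (card_eq_one.mp h)))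
  obtain ⟨h3, h4, h5⟩ := ih _ (hn ▸ card_quot_lt hZ.ne_bot) (G ⧸ Z) rfl (h.of_surj _ hf) _
    (hP.map _ hf)
  set f := QuotientGroup.mk' Z
  have h6 : Nat.card G = p * Nat.card (G ⧸ Z) := by rw [card_eq_mul f hf, hker, hZc]
  have h7 : (Nat.card G).factorization p = (Nat.card (G ⧸ Z)).factorization p + 1 := by
    rw [h6, Nat.factorization_mul hp.ne_zero Nat.card_pos.ne', hp.factorization]
    simp [add_comm]
  have h8 : ∀ F : G ⧸ Z → ℕ, ∑ g, F (f g) = p * ∑ q, F q := fun F => by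
    rw [sum_comp_ker f hf, hker, hZc, Nat.cast_id]
  have h9 := layer_rr hP hp h0 f hf hker hZP hZc
  obtain ⟨φ, hφ⟩ := exists_phi hp hZc
  have h10 : ∀ g, φ g = 1 → rr p u P g = rr p u (P.map f) (f g) + 1 := fun g hg =>
    (h9 g).2.2.2 (hφ _ (by rw [map_pow, hg, one_pow]))
  refine ⟨?_, ?_, fun g hg => ?_⟩
  · have h11 := span_le f hf hker hZP ((XS p (p ^ k * e') G).filter (¬ Iv Z ·)) fun χ hχ hi => by
      obtain ⟨ψ, h12, h13, h14⟩ := hP.cover (hp.odd_of_ne_two h2).pow hχ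
      exact ⟨ψ, Finset.mem_filter.mpr ⟨mem_XS.mpr ⟨h12, fun s hs hs' => h13 s hs (hk ▸ hs')⟩,
        (iv_iff hZP hχ h12 h14).not.mp hi⟩, h12, h14⟩
    have h12 := Finset.sum_le_sum fun g (_ : g ∈ Finset.univ) => (h9 g).1
    have h13 := Finset.sum_le_sum fun g (_ : g ∈ Finset.univ) => (h9 g).2.1
    rw [Finset.sum_add_distrib, Finset.sum_add_distrib, ← cp_eq_sum hP h0 h1,
      h8 fun q => (Irr (CC (P.map f) (q ^ u))).ncard, ← cp_eq_sum (hP.map f hf) h0 h1,
      h8 fun q => ps p (rr p u (P.map f) q)] at h12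
    rw [Finset.sum_add_distrib, h8 fun q => ps p (rr p u (P.map f) q), Finset.sum_const,
      Finset.card_univ, ← Nat.card_eq_fintype_card, smul_eq_mul] at h13
    rw [hZc] at h11
    refine le_trans ?_ (mul_le_mul_of_nonneg_left (WW_layer f hf hker hP.ne hP.exp hc)
      (Nat.cast_nonneg _))
    have h14 : (p : ℝ) * (∑ q, ps p (rr p u (P.map f) q) : ℕ) ≤
        Nat.card G * WW p (p ^ k * e') c (G ⧸ Z) := by
      rw [h6, Nat.cast_mul, mul_assoc]
      exact mul_le_mul_of_nonneg_left h3 (Nat.cast_nonneg _)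
    rw [mul_add, mul_min_of_nonneg _ _ (Nat.cast_nonneg _)]
    refine le_trans ?_ (add_le_add_left h14 _)
    rw [← min_add_add_left]
    exact le_min (by exact_mod_cast (by omega)) (by exact_mod_cast h13)
  · have h11 : ∑ g, (rr p u (P.map f) (f g) + if g ∈ φ.ker then 1 else 0) ≤ ∑ g, rr p u P g :=
      Finset.sum_le_sum fun g _ => by
        split_ifs with hg
        · exact (h10 g hg).ge
        · exact (h9 g).2.2.1
    have h12 : Nat.card G ≤ (p - 1) * Nat.card φ.ker := by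
      rw [← φ.ker.card_mul_index, mul_comm, index_ker, ← ZMod.card_units p,
        ← Nat.card_eq_fintype_card]
      exact Nat.mul_le_mul_right _ (card_le_card_group _)
    rw [Finset.sum_add_distrib, h8 (rr p u (P.map f)), ← Finset.card_filter,
      ← Fintype.card_subtype, ← Nat.card_eq_fintype_card] at h11
    calc _ = p * ((Nat.card (G ⧸ Z)).factorization p * Nat.card (G ⧸ Z)) + Nat.card G := by
          rw [h7, add_mul, one_mul, mul_left_comm, ← h6]
      _ ≤ p * ((p - 1) * ∑ q, rr p u (P.map f) q) + (p - 1) * Nat.card φ.ker := by gcongr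
      _ ≤ _ := by rw [mul_left_comm, ← mul_add]; exact Nat.mul_le_mul_left _ h11
  · rw [h10 g (mem_KK.mp hg φ), h7, h5 _ (mem_KK.mpr fun ψ => mem_KK.mp hg (ψ.comp f))]

end Pool.Agent.P.MP_530519_al
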