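import Pool.Agent.P.MP_530519_al.Defs

/-! Chief factors. -/

namespace Pool.Agent.P.MP_530519_al

/-- `M / N` is a chief factor of `G`: both are normal, `N < M`, and no normal subgroup of `G` lies
strictly between them. -/
def IsChief {G : Type} [Group G] (N M : Subgroup G) : Prop :=
  N.Normal ∧ M.Normal ∧ N < M ∧ ∀ L : Subgroup G, L.Normal → N ≤ L → L ≤ M → L = N ∨ L = M

end Pool.Agent.P.MP_530519_al
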