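import Pool.Agent.P.MP_530519_al.Dual

/-! Degrees of characters, column orthogonality and the class number of `p`-groups. -/

namespace Pool.Agent.P.MP_530519_al

open Set Subgroup
open scoped Classical

variable {G : Type} [Group G] [Fintype G] {N M H : Subgroup G} {l p : ℕ} {β χ θ η : G → ℂ}

theorem mu_cj (h : Nm N H) (hχ : Ch H χ) {y : G} (hy : y ∈ H) (he : EqOn (cj y θ) η N) :
    mu N χ η = mu N χ θ := by
  unfold mu
  rw [← ipH_cj (h.mem_iff hy) χ θ]
  exact congrArg _ (congrArg _ (ipH_congr (fun x hx => (hχ.cl y hy x (h.1 hx)).symm) he.symm))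

theorem cliff_T (h : Nm N H) (hχ : Ir H χ) (hθ : Ir N θ) (h1 : mu N χ θ ≠ 0) :
    ∃ T : ℕ, χ 1 = T * θ 1 ∧ mu N χ χ = T * mu N χ θ := by
  have hc := hχ.ch.mono h.1
  refine ⟨∑ η ∈ IrS N, mu N χ η, ?_, ?_⟩
  · rw [hc.cl.expand N.one_mem, Nat.cast_sum, Finset.sum_mul]
    refine Finset.sum_congr rfl fun η hη => ?_
    rw [hc.ipH_eq_mu (IrS_ir hη).ch]
    by_cases h2 : mu N χ η = 0
    · simp [h2]
    · obtain ⟨y, -, hy⟩ := clifford h hχ hθ (IrS_ir hη) h1 h2
      rw [← hy N.one_mem]; simp [cj]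
  · rw [hc.mu_expand le_rfl hc, Finset.sum_mul]
    refine Finset.sum_congr rfl fun η hη => ?_
    by_cases h2 : mu N χ η = 0
    · simp [h2]
    · obtain ⟨y, hy, hy'⟩ := clifford h hχ hθ (IrS_ir hη) h1 h2
      rw [mu_comm N η, mu_cj h hχ.ch hy hy']

theorem exists_under (hN : N ≤ H) (hχ : Ir H χ) : ∃ θ, Ir N θ ∧ mu N χ θ ≠ 0 := by
  by_contra hc
  push Not at hc
  apply hχ.one_ne
  have h1 := hχ.ch.mono hN
  rw [h1.cl.expand N.one_mem]
  exact Finset.sum_eq_zero fun η hη => by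
    rw [h1.ipH_eq_mu (IrS_ir hη).ch, hc η (IrS_ir hη)]; simp

theorem Lin.mu_dvd (h : Lin N M l β) (hl : l.Prime) (hN : N ≤ M) (hr : N.relIndex M = l)
    (hχ : Ir M χ) : mu N χ χ ∣ l := by
  by_cases hc : ∃ j < l, j ≠ 0 ∧ ipH M (tw β j χ) χ ≠ 0
  · obtain ⟨j, hj, hj0, h4⟩ := hc
    have h5 := h.van hl (Nat.not_dvd_of_pos_of_lt (Nat.pos_of_ne_zero hj0) hj)
      ((h.ir j hχ).eqOn hχ h4) hN hr
    rw [hχ.ipH_self, mul_one] at h5
    rw [mu_of_ipH h5.symm]
  · push Not at hc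
    have h4 := h.ipH_sum hN hr χ χ
    rw [Finset.sum_eq_single 0 (fun j hj hj0 => hc j (by simpa using hj) hj0) (by simp [hl.ne_zero]),
      show tw β 0 χ = χ from by ext; simp [tw], hχ.ipH_self] at h4
    rw [mu_of_ipH (n := 1) (by simpa using h4.symm)]
    exact one_dvd _

/-- The degree of an irreducible character has only prime factors of the group order. -/
theorem Ir.deg [Group.IsSolvable G] (hχ : Ir H χ) :
    ∃ d : ℕ, χ 1 = d ∧ ∀ r : ℕ, r.Prime → r ∣ d → r ∣ Nat.card H := by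
  let Q : Subgroup G → Prop := fun N =>
    ∀ θ, Ir N θ → ∃ d : ℕ, θ 1 = d ∧ ∀ r : ℕ, r.Prime → r ∣ d → r ∣ Nat.card H
  have key : ∀ n, ∀ N : Subgroup G, Nat.card H - Nat.card N = n → Nm N H → Q N → Q H := by
    intro n
    induction n using Nat.strong_induction_on with
    | _ n ih =>
    intro N hn h hQ
    by_cases hN : N = H
    · exact hN ▸ hQ
    obtain ⟨l, M, hl, hM, hne, hab⟩ := exists_ab h hN
    have h3 := card_le_of_le hM.1
    have h4 : Nat.card N < Nat.card M :=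
      lt_of_not_ge fun h5 => hne (eq_of_le_of_card_ge hab.1 h5)
    refine ih _ (by omega) M rfl hM ?_
    obtain ⟨_, h5, -⟩ := hab.loop hl (fun N _ => Q N) (by
      intro N₁ N₂ β θ₁ h1 h2 h6 hr hβ hQ₁
      refine ⟨θ₁, fun χ hχ => ?_, fun _ _ => rfl⟩
      obtain ⟨θ, hθ, h7⟩ := exists_under h2 hχ
      obtain ⟨T, h8, h9⟩ := cliff_T ((hab.mono h1 (h2.trans h6)).nm.mono h2 h6) hχ hθ h7
      obtain ⟨d, hd, hd'⟩ := hQ₁ θ hθ
      refine ⟨T * d, by rw [h8, hd]; simp, fun r hr' h10 => ?_⟩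
      rcases (Nat.Prime.dvd_mul hr').mp h10 with h11 | h11
      · have h12 := hβ.mu_dvd hl h2 hr hχ
        rw [h9, ← hr] at h12
        exact (h11.trans ((Dvd.intro _ rfl).trans h12)).trans
          ((Dvd.intro_left _ (card_mul_rel h2)).trans (card_dvd_of_le (h6.trans hM.1)))
      · exact hd' r hr' h11) N (fun _ => 0) le_rfl hab.1 hQ
    exact h5
  refine key _ ⊥ rfl ⟨bot_le, fun g _ x hx => by simp [mem_bot.mp hx]⟩ (fun θ hθ => ?_) χ hχ
  refine ⟨1, ?_, fun r hr h1 => absurd (Nat.dvd_one.mp h1) hr.one_lt.ne'⟩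
  simpa using (irr_comm (G := (⊥ : Subgroup G)) (fun a b => Subsingleton.elim _ _) hθ).1

/-- The finite set of irreducible characters. -/
noncomputable abbrev IF (G : Type) [Group G] [Fintype G] : Finset (G → ℂ) :=
  (irr_finite (G := G)).toFinset

theorem mem_IF : χ ∈ IF G ↔ χ ∈ Irr G := Set.Finite.mem_toFinset _

/-- Column orthogonality. -/
theorem col (x y : G) :
    (∑ g : G, if g * x * g⁻¹ = y then (1 : ℂ) else 0) = ∑ χ ∈ IF G, χ x⁻¹ * χ y := by
  have h1 := congrFun (class_eq_sum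
    (c := fun y => ∑ g : G, if g * x * g⁻¹ = y then (1 : ℂ) else 0) (by
      intro h y
      rw [← Equiv.sum_comp (Equiv.mulLeft h)]
      refine Finset.sum_congr rfl fun g _ => ?_
      have : h * g * x * (h * g)⁻¹ = h * (g * x * g⁻¹) * h⁻¹ := by group
      simp only [Equiv.coe_mulLeft, this, mul_left_inj, mul_right_inj])) y
  rw [h1, Finset.sum_apply]
  refine Finset.sum_congr rfl fun χ hχ => ?_
  rw [Pi.smul_apply, smul_eq_mul]
  congr 1
  have h2 : ∀ g : G, χ (g * x * g⁻¹)⁻¹ = χ x⁻¹ := fun g => by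
    rw [← (RepCh.of_irr (mem_IF.mp hχ)).conj g x⁻¹]; congr 1; group
  simp only [ip, Finset.sum_mul]
  rw [Finset.sum_comm]
  simp only [ite_mul, one_mul, zero_mul, Finset.sum_ite_eq, Finset.mem_univ, if_true, h2,
    Finset.sum_const, Finset.card_univ, nsmul_eq_mul, ← Nat.card_eq_fintype_card]
  have := card_ne (G := G)
  field_simp

/-- The number of commuting pairs with second entry in `P`. -/
noncomputable def cp (P : Subgroup G) : ℕ :=
  ∑ g : G, ∑ x : G, if x ∈ P ∧ g * x = x * g then 1 else 0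

theorem cp_eq (P : Subgroup G) : cp P = Nat.card P * ∑ χ ∈ IF G, mu P χ χ := by
  have h1 : (cp P : ℂ) = ∑ x : G, if x ∈ P then ∑ χ ∈ IF G, χ x * χ x⁻¹ else 0 := by
    simp only [cp, Nat.cast_sum, Nat.cast_ite, Nat.cast_one, Nat.cast_zero]
    rw [Finset.sum_comm]
    refine Finset.sum_congr rfl fun x _ => ?_
    split_ifs with hx
    · simpa only [hx, true_and, mul_inv_eq_iff_eq_mul, mul_comm] using col x x
    · simp [hx]
  have h2 : (cp P : ℂ) = Nat.card P * ∑ χ ∈ IF G, (mu P χ χ : ℂ) := by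
    rw [h1, Finset.mul_sum, Finset.sum_congr rfl (g := fun x => ∑ χ ∈ IF G,
      if x ∈ P then χ x * χ x⁻¹ else 0) (fun x _ => by split_ifs <;> simp), Finset.sum_comm]
    refine Finset.sum_congr rfl fun χ hχ => ?_
    have h3 := (ir_top.mpr (mem_IF.mp hχ)).ch.mono (le_top : P ≤ ⊤)
    rw [← h3.ipH_eq_mu h3, ipH, ← mul_assoc, mul_inv_cancel₀ (cardH_ne P), one_mul]
  exact_mod_cast h2

theorem cp_top : cp (⊤ : Subgroup G) = Nat.card G * (IF G).card := by
  rw [cp_eq, card_top, Finset.sum_congr rfl (g := fun _ => 1)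
    (fun χ hχ => (ir_top.mpr (mem_IF.mp hχ)).mu_self)]
  simp

theorem sum_sq_deg : ∑ χ ∈ IF G, χ 1 * χ 1 = Nat.card G := by
  simpa using (col (1 : G) 1).symm

theorem card_IF_mod (hp : p.Prime) {r : ℕ} (hG : Nat.card G = p ^ r) :
    (IF G).card ≡ p ^ r [MOD p ^ 2 - 1] := by
  have := Fact.mk hp
  have : Group.IsNilpotent G := (IsPGroup.of_card hG).isNilpotent
  choose! d hd hd' using fun χ (hχ : χ ∈ IF G) => (ir_top.mpr (mem_IF.mp hχ)).deg
  have h1 : ∑ χ ∈ IF G, d χ * d χ = p ^ r := by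
    have h2 := sum_sq_deg (G := G)
    rw [Finset.sum_congr rfl (fun χ hχ => by rw [hd χ hχ]), hG] at h2
    exact_mod_cast h2
  rw [← h1, Finset.card_eq_sum_ones, ← ZMod.natCast_eq_natCast_iff]
  push_cast
  refine Finset.sum_congr rfl fun χ hχ => ?_
  have h2 : d χ ≠ 0 := fun h0 => irr_one_ne (mem_IF.mp hχ) (by rw [hd χ hχ, h0]; simp)
  have h3 := Nat.eq_prime_pow_of_unique_prime_dvd h2 (p := p) fun {q} hq hq' => by
    have := hd' χ hχ q hq hq'
    rw [card_top, hG] at this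
    exact (Nat.prime_dvd_prime_iff_eq hq hp).mp (hq.dvd_of_dvd_pow this)
  have h4 : ((p : ZMod (p ^ 2 - 1))) ^ 2 = 1 := by
    have h5 : ((p ^ 2 - 1 : ℕ) : ZMod (p ^ 2 - 1)) = 0 := ZMod.natCast_self _
    rw [Nat.cast_sub (Nat.one_le_pow _ _ hp.pos)] at h5
    push_cast at h5
    exact sub_eq_zero.mp h5
  rw [h3]
  push_cast
  rw [← mul_pow, ← sq, h4, one_pow]

theorem image_IF_subset {D : Type} [Group D] [Fintype D] (f : G →* D)
    (hf : Function.Surjective f) : (IF D).image (fun ψ => ψ ∘ f) ⊆ IF G := by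
  intro χ hχ
  obtain ⟨ψ, hψ, rfl⟩ := Finset.mem_image.mp hχ
  exact mem_IF.mpr (irr_comp f hf (mem_IF.mp hψ))

theorem card_IF_le {D : Type} [Group D] [Fintype D] (f : G →* D) (hf : Function.Surjective f) :
    (IF D).card ≤ (IF G).card := by
  rw [← Finset.card_image_of_injective _ hf.injective_comp_right]
  exact Finset.card_le_card (image_IF_subset f hf)

/-- The increments of the class number along a chief series of a `p`-group. -/
def dl (p r : ℕ) : ℕ := if Even r then p - 1 else p * (p - 1)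

/-- Hall's lower bound for the class number of a group of order `p ^ r`, minus one. -/
def ps (p r : ℕ) : ℕ := ∑ i ∈ Finset.range r, dl p i

theorem hall_step {D : Type} [Group D] [Fintype D] (f : G →* D) (hf : Function.Surjective f)
    (hp : p.Prime) {r : ℕ} (hG : Nat.card G = p ^ (r + 1)) (hD : Nat.card D = p ^ r) :
    (IF D).card + dl p r ≤ (IF G).card := by
  have h1 := card_IF_le f hf
  have h2 : (IF D).card ≠ (IF G).card := by
    intro h
    have h3 := Finset.eq_of_subset_of_card_le (image_IF_subset f hf)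
      (by rw [Finset.card_image_of_injective _ hf.injective_comp_right, h])
    have h4 := sum_sq_deg (G := G)
    rw [← h3, Finset.sum_image fun _ _ _ _ h => hf.injective_comp_right h] at h4
    simp only [Function.comp, map_one, sum_sq_deg, hG, hD, Nat.cast_inj] at h4
    exact absurd (Nat.pow_right_injective hp.two_le h4) (by omega)
  obtain ⟨δ, hδ⟩ := Nat.exists_eq_add_of_le h1
  have h3 := card_IF_mod hp hG
  have h4 := card_IF_mod hp hD
  rw [hδ] at h3 h2 ⊢
  obtain ⟨q, rfl⟩ : ∃ q, p = q + 1 := ⟨p - 1, by have := hp.pos; omega⟩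
  have hq : 1 ≤ q := by have := hp.two_le; omega
  have h5 : (q + 1) ^ 2 - 1 = q * (q + 2) := by
    rw [show (q + 1) ^ 2 = q * (q + 2) + 1 by ring]; simp
  rw [h5] at h3 h4
  have h6 : δ ≡ (q + 1) ^ r * q [MOD q * (q + 2)] := by
    apply Nat.ModEq.add_left_cancel h4
    rw [show (q + 1) ^ r + (q + 1) ^ r * q = (q + 1) ^ (r + 1) by ring]; exact h3
  have h7 : ∀ j, (q + 1) ^ (2 * j) ≡ 1 [MOD q * (q + 2)] := fun j => by
    rw [pow_mul, show (q + 1) ^ 2 = q * (q + 2) + 1 by ring]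
    simpa using (Nat.ModEq.pow j (show q * (q + 2) + 1 ≡ 1 [MOD q * (q + 2)] by simp [Nat.ModEq]))
  have h8 : dl (q + 1) r ≡ δ [MOD q * (q + 2)] := by
    refine Nat.ModEq.trans ?_ h6.symm
    unfold dl
    split_ifs with he
    · obtain ⟨j, rfl⟩ := he
      simpa [two_mul] using ((h7 j).mul_right q).symm
    · obtain ⟨j, rfl⟩ := Nat.not_even_iff_odd.mp he
      simpa [pow_succ, mul_assoc] using ((h7 j).mul_right ((q + 1) * q)).symm
  have h9 : dl (q + 1) r < q * (q + 2) := by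
    unfold dl
    split_ifs <;> simp only [Nat.add_sub_cancel] <;> nlinarith
  have h10 : dl (q + 1) r ≤ δ := by
    by_contra h11
    have h12 := Nat.ModEq.eq_of_lt_of_lt h8 h9 (by omega)
    omega
  omega

end Pool.Agent.P.MP_530519_al
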