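import Pool.Agent.P.MP_530519_al.SS.Cen

/-! Bounds for the exponent of one prime in the group order. -/

namespace Pool.Agent.P.MP_530519_al

open Subgroup
open scoped Classical

variable {m p B : ℕ}

theorem le_ps (p r : ℕ) : p * (p - 1) * (r / 2) ≤ ps p r := by
  induction r with
  | zero => simp
  | succ r ih =>
    rw [ps, Finset.sum_range_succ, ← ps, dl]
    split_ifs with h
    · rw [show (r + 1) / 2 = r / 2 by obtain ⟨j, rfl⟩ := h; omega]; omega
    · rw [show (r + 1) / 2 = r / 2 + 1 by rw [Nat.even_iff] at h; omega, mul_add]; omega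

theorem pred_le_ps {r : ℕ} (h : r ≠ 0) : p - 1 ≤ ps p r := by
  simpa [dl, ps] using Finset.single_le_sum (f := dl p) (fun _ _ => Nat.zero_le _)
    (Finset.mem_range.mpr (Nat.pos_of_ne_zero h))

theorem one_prime (hp : p.Prime) (h2 : p ≠ 2) (n : ℕ) :
    ∀ (G : Type) [Group G] [Fintype G] [Group.IsSolvable G], Nat.card G = n → Hyp m G → PS p G →
      p * (Nat.card G).factorization p ≤ 64 * m * (p - 1).divisors.card + p ^ 2 ∧
      ps p ((Nat.card G).factorization p) ≤ 32 * (m * (p - 1).divisors.card) ^ 2 := by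
  induction n using Nat.strong_induction_on with
  | _ n ih =>
  intro G _ _ _ hn hm h
  obtain ⟨Y, hY, h1, h3⟩ := exists_Y hp _ G rfl h
  by_cases h0 : Y ≠ ⊥
  · have : Fintype (G ⧸ Y) := Fintype.ofFinite _
    have hf := QuotientGroup.mk'_surjective Y
    rw [← fact_quot Y h1]
    exact ih _ (hn ▸ card_quot_lt h0) (G ⧸ Y) rfl (hm.of_surj _ hf) (h.of_surj _ hf)
  obtain rfl := not_not.mp h0
  have he : Nat.card G ≠ 0 := Nat.card_pos.ne'
  have hG : ∀ g : G, g ^ Nat.card G = 1 := fun _ => pow_card_eq_one'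
  have he' := Nat.ordProj_mul_ordCompl_eq_self (Nat.card G) p
  have hco := (Nat.coprime_ordCompl hp he).pow_left ((Nat.card G).factorization p)
  obtain ⟨P, hP, -⟩ := exists_hall hco (he'.symm ▸ he) (he'.symm ▸ hG) fun x hx => by
    obtain ⟨k, hk⟩ := h3 x hx
    exact orderOf_dvd_iff_pow_eq_one.mp (dvd_ordProj hp he (orderOf_dvd_of_pow_eq_one hk)
      (orderOf_dvd_natCard x))
  obtain ⟨u, hu, hu'⟩ := Nat.chineseRemainder hco 0 1
  obtain ⟨c, hc⟩ := exists_gen hp he
  obtain ⟨h4, h5, h6⟩ := core hp h2 (by rw [he']) (Nat.modEq_zero_iff_dvd.mp hu) hu'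
    (he'.symm ▸ hc.1) _ G rfl h P hP
  rw [he'] at h4
  have h7 : ∑ g, ps p (rr p u P g) ≤ Nat.card G * (32 * m * (p - 1).divisors.card) := by
    exact_mod_cast h4.trans (mul_le_mul_of_nonneg_left (hm.WW_le hp he hG hc) (Nat.cast_nonneg _))
  constructor
  · have h8 : ∑ g, p * (p - 1) * rr p u P g ≤ ∑ g, (2 * ps p (rr p u P g) + p ^ 2) :=
      Finset.sum_le_sum fun g _ => by
        have h9 := le_ps p (rr p u P g)
        have h10 : p * (p - 1) ≤ p ^ 2 := by nlinarith [Nat.sub_le p 1]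
        have h11 : rr p u P g ≤ 2 * (rr p u P g / 2) + 1 := by omega
        nlinarith [Nat.mul_le_mul_left (p * (p - 1)) h11]
    rw [← Finset.mul_sum, Finset.sum_add_distrib, ← Finset.mul_sum, Finset.sum_const,
      Finset.card_univ, ← Nat.card_eq_fintype_card, smul_eq_mul] at h8
    refine Nat.le_of_mul_le_mul_right ?_ (Nat.pos_of_ne_zero he)
    nlinarith [Nat.mul_le_mul_left p h5]
  · have h8 : ∑ g ∈ Finset.univ.filter (· ∈ KK p G), ps p (rr p u P g) ≤ ∑ g, ps p (rr p u P g) :=
      Finset.sum_le_sum_of_subset (Finset.filter_subset _ _)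
    rw [Finset.sum_congr rfl fun g hg => by rw [h6 g (Finset.mem_filter.mp hg).2],
      Finset.sum_const, ← Fintype.card_subtype, ← Nat.card_eq_fintype_card, smul_eq_mul] at h8
    have h9 := h8.trans h7
    nth_rw 2 [← (KK p G).card_mul_index] at h9
    rw [mul_assoc] at h9
    refine (Nat.le_of_mul_le_mul_left h9 Nat.card_pos).trans
      ((Nat.mul_le_mul_right _ (hm.index_KK hp)).trans (le_of_eq (by ring)))

theorem fact_le_wt {e c : ℕ} (hp : p.Prime) (he : e ≠ 0) (hc : Gen p e c) (n : ℕ) :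
    ∀ (G : Type) [Group G] [Fintype G] [Group.IsSolvable G], Nat.card G = n → Hyp m G →
      (∀ g : G, g ^ e = 1) → Cls (fun k => k.Prime ∨ k ≤ B) G →
      ((Nat.card G).factorization p : ℝ) ≤ (B + 1) * wt p e c G := by
  induction n using Nat.strong_induction_on with
  | _ n ih =>
  intro G _ _ _ hn hm hG h
  by_cases h0 : (⊤ : Subgroup G) = ⊥
  · rw [← card_top, h0, card_bot]
    simpa using mul_nonneg (by positivity) (Finset.sum_nonneg fun _ _ => by positivity)
  obtain ⟨Z, l, -, hZ⟩ := exists_minN (⊤ : Subgroup G) h0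
  have := hZ.normal
  have : Fintype (G ⧸ Z) := Fintype.ofFinite _
  have hπ := QuotientGroup.mk'_surjective Z
  have h1 := ih _ (hn ▸ card_quot_lt hZ.ne_bot) (G ⧸ Z) rfl (hm.of_surj _ hπ) (fun g => by
    obtain ⟨g, rfl⟩ := hπ g
    rw [← map_pow, hG, map_one]) (h.of_surj _ hπ)
  by_cases hl : l = p
  · subst hl
    have h2 := wt_succ _ hπ hm hp he hG hc hZ.comm hZ.pow hZ.ne_bot
      fun x hx => (QuotientGroup.eq_one_iff x).mpr hx
    have h3 : (Nat.card Z).factorization l ≤ B + 1 := by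
      rcases h.min hZ with h4 | h4
      · rw [h4.factorization, Finsupp.single_apply]; split_ifs <;> omega
      · have := Nat.factorization_lt l (Nat.card_pos (α := Z)).ne'; omega
    have h4 : ((Nat.card Z).factorization l : ℝ) ≤ B + 1 := by exact_mod_cast h3
    rw [card_eq_card_quotient_mul_card_subgroup Z, Nat.factorization_mul Nat.card_pos.ne'
      Nat.card_pos.ne', Finsupp.add_apply, Nat.cast_add]
    nlinarith
  · rw [← fact_quot Z (not_dvd_card hp fun x hx =>
      ⟨l, fun h2 => hl ((Nat.prime_dvd_prime_iff_eq hp hZ.prime).mp h2).symm, hZ.pow x hx⟩)]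
    exact h1.trans (mul_le_mul_of_nonneg_left (wt_mono _ hπ _ _ _) (by positivity))

theorem small_prime {G : Type} [Group G] [Fintype G] [Group.IsSolvable G] (hp : p.Prime)
    (hm : Hyp m G) (h : Cls (fun k => k.Prime ∨ k ≤ B) G) :
    (Nat.card G).factorization p ≤ (B + 1) * (32 * m * p) := by
  have he : Nat.card G ≠ 0 := Nat.card_pos.ne'
  have hG : ∀ g : G, g ^ Nat.card G = 1 := fun _ => pow_card_eq_one'
  obtain ⟨c, hc⟩ := exists_gen hp he
  have h1 := (fact_le_wt hp he hc _ G rfl hm hG h).trans (mul_le_mul_of_nonneg_left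
    ((wt_le_WW hp).trans (hm.WW_le hp he hG hc)) (by positivity))
  have h2 : (Nat.card G).factorization p ≤ (B + 1) * (32 * m * (p - 1).divisors.card) := by
    exact_mod_cast h1
  exact h2.trans (by gcongr; exact (Nat.card_divisors_le_self _).trans (Nat.sub_le _ _))

end Pool.Agent.P.MP_530519_al
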