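import Pool.Agent.P.MP_530519_al.SS.Cen

/-! A bound for the product of the exponents of two primes in the group order. -/

namespace Pool.Agent.P.MP_530519_al

open Subgroup MulAction
open scoped Classical

theorem two_gen {Γ X : Type} [CommGroup Γ] [Finite Γ] [MulAction Γ X] {m N₁ N₂ : ℕ} (x y : Γ)
    (S : Finset X) (hst : ∀ γ : Γ, ∀ s ∈ S, γ • s ∈ S)
    (hgen : ∀ γ : Γ, ∃ i j : ℕ, ∀ s ∈ S, γ • s = (x ^ i * y ^ j) • s)
    (hm : ∀ U, (S.filter fun s => stabilizer Γ s = U).card ≤ m) (R : Finset X) (hR : R ⊆ S)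
    (hR' : ∀ r ∈ R, ∀ r' ∈ R, ∀ γ : Γ, γ • r = r' → r = r')
    (h1 : ∀ s ∈ S, x ^ N₁ • s = s) (h2 : ∀ s ∈ S, y ^ N₂ • s = s) (D₁ D₂ : Finset ℕ)
    (hD₁ : ∀ d, d ∣ N₁ → d ≤ m → d ∈ D₁) (hD₂ : ∀ d, d ∣ N₂ → d ≤ m → d ∈ D₂) :
    R.card ≤ m * (D₁.card * D₂.card) := by
  let a : X → ℕ := fun s => orderOf (x : Γ ⧸ (stabilizer Γ s ⊔ zpowers y))
  let d : X → ℕ := fun s => orderOf (y : Γ ⧸ stabilizer Γ s)
  have hs : ∀ (γ : Γ) (s : X), stabilizer Γ (γ • s) = stabilizer Γ s := fun γ s => by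
    ext v
    simp only [mem_stabilizer_iff]
    rw [smul_comm, smul_left_cancel_iff]
  have hi : ∀ s ∈ S, (stabilizer Γ s).index ≤ m := fun s h => by
    rw [index_stabilizer]
    refine le_trans ?_ (hm (stabilizer Γ s))
    rw [← Set.ncard_coe_finset]
    refine Set.ncard_le_ncard ?_ (Finset.finite_toSet _)
    rintro _ ⟨γ, rfl⟩
    simp [hst γ s h, hs]
  have hd : ∀ s i, d s ∣ i ↔ y ^ i ∈ stabilizer Γ s := fun s i => by
    rw [orderOf_dvd_iff_pow_eq_one, ← QuotientGroup.mk_pow, QuotientGroup.eq_one_iff]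
  have ha : ∀ s i, a s ∣ i ↔ x ^ i ∈ stabilizer Γ s ⊔ zpowers y := fun s i => by
    rw [orderOf_dvd_iff_pow_eq_one, ← QuotientGroup.mk_pow, QuotientGroup.eq_one_iff]
  have hb : ∀ s, ∃ b < d s, x ^ a s * y ^ b ∈ stabilizer Γ s := fun s => by
    obtain ⟨w, hw, z, hz, h⟩ := mem_sup.mp ((ha s _).mp dvd_rfl)
    obtain ⟨j, hj⟩ := mem_powers_iff_mem_zpowers.mpr (inv_mem hz)
    refine ⟨j % d s, Nat.mod_lt _ (orderOf_pos _), ?_⟩
    rw [← QuotientGroup.eq_one_iff, QuotientGroup.mk_mul, QuotientGroup.mk_pow _ y,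
      pow_mod_orderOf, ← QuotientGroup.mk_pow, ← QuotientGroup.mk_mul, QuotientGroup.eq_one_iff]
    simp only at hj
    simpa [hj, ← h] using hw
  choose b hb hb' using hb
  have key : ∀ s ∈ S, ∀ s' ∈ S, a s = a s' → d s = d s' → b s = b s' →
      stabilizer Γ s ≤ stabilizer Γ s' := by
    intro s h s' h' e1 e2 e3 γ hγ
    obtain ⟨i, j, hij⟩ := hgen γ
    have h3 : x ^ i * y ^ j ∈ stabilizer Γ s := (hij s h).symm.trans hγ
    obtain ⟨t, rfl⟩ := (ha s i).mpr (by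
      simpa using mul_mem (mem_sup_left h3 : _ ∈ stabilizer Γ s ⊔ zpowers y)
        (mem_sup_right (inv_mem (pow_mem (mem_zpowers y) j))))
    have h4 : ∀ s, x ^ (a s * t) * y ^ j ∈ stabilizer Γ s ↔ b s * t ≡ j [MOD d s] := fun s => by
      rw [← pow_eq_pow_iff_modEq, ← QuotientGroup.mk_pow, ← QuotientGroup.mk_pow, QuotientGroup.eq,
        ← (stabilizer Γ s).mul_mem_cancel_left (y := (y ^ (b s * t))⁻¹ * y ^ j) (pow_mem (hb' s) t)]
      simp [mul_pow, pow_mul, mul_assoc]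
    have h5 := (h4 s').mpr (e2 ▸ e3 ▸ (h4 s).mp h3)
    exact (hij s' h').trans (e1 ▸ h5)
  rw [← Finset.card_product]
  refine Finset.card_le_mul_card_image_of_maps_to (f := fun s => (a s, d s)) (fun s h => ?_) m ?_
  · have h' := hR h
    exact Finset.mem_product.mpr ⟨hD₁ _ ((ha s _).mpr (mem_sup_left (h1 s h')))
      (orderOf_le_card.trans ((index_antitone le_sup_left).trans (hi s h'))),
      hD₂ _ ((hd s _).mpr (h2 s h')) (orderOf_le_card.trans (hi s h'))⟩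
  rintro ⟨a₀, d₀⟩ -
  rcases Finset.eq_empty_or_nonempty (R.filter fun s => (a s, d s) = (a₀, d₀)) with h0 | ⟨s₀, h0⟩
  · exact (Finset.card_eq_zero.mpr h0).trans_le (Nat.zero_le _)
  have h3 : 0 < d₀ := (Prod.mk.inj (Finset.mem_filter.mp h0).2).2 ▸ orderOf_pos _
  have h4 : (S.filter fun s => (a s, d s) = (a₀, d₀)).card ≤ m * (Finset.range d₀).card := by
    refine Finset.card_le_mul_card_image_of_maps_to (f := b) (fun s h => Finset.mem_range.mpr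
      ((Prod.mk.inj (Finset.mem_filter.mp h).2).2 ▸ hb s)) m fun b₀ _ => ?_
    rcases Finset.eq_empty_or_nonempty ((S.filter fun s => (a s, d s) = (a₀, d₀)).filter
      fun s => b s = b₀) with h5 | ⟨s, h5⟩
    · exact (Finset.card_eq_zero.mpr h5).trans_le (Nat.zero_le _)
    refine le_trans (Finset.card_le_card fun s' h6 => ?_) (hm (stabilizer Γ s))
    simp only [Finset.mem_filter, Prod.mk.injEq] at h5 h6 ⊢
    exact ⟨h6.1.1, le_antisymm (key _ h6.1.1 _ h5.1.1 (by omega) (by omega) (by omega))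
      (key _ h5.1.1 _ h6.1.1 (by omega) (by omega) (by omega))⟩
  refine Nat.le_of_mul_le_mul_right (le_trans ?_ h4) (by simpa using h3)
  rw [← Finset.card_product]
  refine Finset.card_le_card_of_injOn (fun z => y ^ z.2 • z.1) (fun z hz => ?_) ?_
  · simp only [Finset.coe_product, Finset.coe_filter, Set.mem_prod, Set.mem_ofPred_eq] at hz ⊢
    have h5 : ∀ U V : Subgroup Γ, U = V → (orderOf (x : Γ ⧸ (U ⊔ zpowers y)), orderOf (y : Γ ⧸ U)) =
        (orderOf (x : Γ ⧸ (V ⊔ zpowers y)), orderOf (y : Γ ⧸ V)) := by rintro U _ rfl; rfl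
    exact ⟨hst _ _ (hR hz.1.1), (h5 _ _ (hs _ _)).trans hz.1.2⟩
  · rintro ⟨r, i⟩ hr ⟨r', j⟩ hr' h5
    simp only [Finset.coe_product, Finset.coe_filter, Set.mem_prod, Set.mem_ofPred_eq,
      Finset.coe_range, Set.mem_Iio, Prod.mk.injEq] at hr hr' h5 ⊢
    obtain rfl := hR' r hr.1.1 r' hr'.1.1 ((y ^ j)⁻¹ * y ^ i) (by rw [mul_smul, h5, inv_smul_smul])
    refine ⟨rfl, pow_injOn_Iio_orderOf (x := (y : Γ ⧸ stabilizer Γ r)) (hr.1.2.2.symm ▸ hr.2 :)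
      (hr.1.2.2.symm ▸ hr'.2 :) ?_⟩
    simp only [← QuotientGroup.mk_pow]
    rw [QuotientGroup.eq, mem_stabilizer_iff, mul_smul, ← h5, inv_smul_smul]

theorem units_two {p q k l e : ℕ} [NeZero e] (hp : p.Prime) (hq : q.Prime) (hp2 : p ≠ 2)
    (hq2 : q ≠ 2) (hpq : p ≠ q) (h : p ^ k * q ^ l ∣ e) : ∃ x y : (ZMod e)ˣ,
      (∀ γ, ∃ i j : ℕ, ZMod.unitsMap h γ = ZMod.unitsMap h (x ^ i * y ^ j)) ∧
      ZMod.unitsMap h (x ^ ((p - 1) * p ^ k)) = 1 ∧ ZMod.unitsMap h (y ^ ((q - 1) * q ^ l)) = 1 := by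
  have hc : (p ^ k).Coprime (q ^ l) := Nat.coprime_pow_primes _ _ hp hq hpq
  have : NeZero (p ^ k) := ⟨pow_ne_zero _ hp.ne_zero⟩
  have : NeZero (q ^ l) := ⟨pow_ne_zero _ hq.ne_zero⟩
  let φ : (ZMod (p ^ k * q ^ l))ˣ ≃* (ZMod (p ^ k))ˣ × (ZMod (q ^ l))ˣ :=
    (Units.mapEquiv (ZMod.chineseRemainder hc).toMulEquiv).trans MulEquiv.prodUnits
  have := ZMod.isCyclic_units_of_prime_pow p hp hp2 k
  have := ZMod.isCyclic_units_of_prime_pow q hq hq2 l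
  obtain ⟨g, hg⟩ := IsCyclic.exists_monoid_generator (α := (ZMod (p ^ k))ˣ)
  obtain ⟨g', hg'⟩ := IsCyclic.exists_monoid_generator (α := (ZMod (q ^ l))ˣ)
  obtain ⟨x, hx⟩ := ZMod.unitsMap_surjective h (φ.symm (g, 1))
  obtain ⟨y, hy⟩ := ZMod.unitsMap_surjective h (φ.symm (1, g'))
  have h1 : ∀ {r j : ℕ} [NeZero (r ^ j)], r.Prime → ∀ w : (ZMod (r ^ j))ˣ,
      w ^ ((r - 1) * r ^ j) = 1 := fun {r j} _ hr w => orderOf_dvd_iff_pow_eq_one.mp
    ((ZMod.card_units_eq_totient (r ^ j) ▸ orderOf_dvd_card).trans (totient_dvd hr _))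
  refine ⟨x, y, fun γ => ?_, ?_, ?_⟩
  · obtain ⟨i, hi⟩ := hg (φ (ZMod.unitsMap h γ)).1
    obtain ⟨j, hj⟩ := hg' (φ (ZMod.unitsMap h γ)).2
    refine ⟨i, j, φ.injective ?_⟩
    simp only at hi hj
    simp [hx, hy, hi, hj]
  · rw [map_pow, hx, ← map_pow]; simp [h1 hp, Prod.mk_one_one]
  · rw [map_pow, hy, ← map_pow]; simp [h1 hq, Prod.mk_one_one]

theorem exists_D {p m a : ℕ} (hp : p.Prime) (hma : m < 2 ^ a) (k : ℕ) : ∃ D : Finset ℕ,
    D.card ≤ (p - 1).divisors.card * a ∧ ∀ d, d ∣ (p - 1) * p ^ k → d ≤ m → d ∈ D := by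
  refine ⟨((p - 1).divisors ×ˢ Finset.range a).image fun z => z.1 * p ^ z.2,
    Finset.card_image_le.trans (by simp), fun d h1 h2 => ?_⟩
  obtain ⟨b, hb, i, -, rfl⟩ := exists_mul_pow hp h1
  refine Finset.mem_image.mpr ⟨(b, i), Finset.mem_product.mpr ⟨hb, Finset.mem_range.mpr ?_⟩, rfl⟩
  exact (Nat.pow_lt_pow_iff_right one_lt_two).mp (lt_of_le_of_lt ((Nat.pow_le_pow_left hp.two_le i).trans
    ((Nat.le_mul_of_pos_left _ (Nat.pos_of_mem_divisors hb)).trans h2)) hma)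

variable {G : Type} [Group G] [Fintype G] {m a p q : ℕ}

theorem cells_le [Group.IsSolvable G] {k l e' α β : ℕ} {M : Subgroup G} (hp : p.Prime)
    (hq : q.Prime) (hp2 : p ≠ 2) (hq2 : q ≠ 2) (hpq : p ≠ q) (hm : Hyp m G) (hma : m < 2 ^ a)
    (hM : Hall (p ^ k * q ^ l) e' M) {A B : ℕ → Subgroup G} (hA : Monotone A) (hB : Monotone B)
    (hA1 : ∀ i, (A i).Normal ∧ A i ≤ M) (hB1 : ∀ i, (B i).Normal ∧ B i ≤ M)
    (hA2 : ∀ i < α, A i < A (i + 1)) (hB2 : ∀ i < β, B i < B (i + 1))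
    (hd : ∀ i j, Disjoint (A i) (B j)) :
    α * β ≤ m * ((p - 1).divisors.card * a * ((q - 1).divisors.card * a)) := by
  have : NeZero (p ^ k * q ^ l * e') := ⟨hM.ne⟩
  letI := galAct hM.exp
  have hA3 := fun i => (hA1 i).1
  have hB3 := fun i => (hB1 i).1
  have h1 : ∀ z : Fin α × Fin β, ∃ ψ ∈ Irr G, FixN (p ^ k * q ^ l) (p ^ k * q ^ l * e') ⊤ ψ ∧
      (Iv (A z.1) ψ ∧ ¬ Iv (A (z.1 + 1)) ψ) ∧ Iv (B z.2) ψ ∧ ¬ Iv (B (z.2 + 1)) ψ := fun z => by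
    obtain ⟨χ, hχ, h⟩ := exists_cell (hA2 _ z.1.2) (hB2 _ z.2.2) (hd _ _)
    obtain ⟨ψ, h2, h3, h4⟩ := hM.cover
      ((hp.odd_of_ne_two hp2).pow.mul (hq.odd_of_ne_two hq2).pow) hχ
    refine ⟨ψ, h2, h3, ?_⟩
    rwa [← iv_iff (hA1 _).2 hχ h2 h4, ← iv_iff (hA1 _).2 hχ h2 h4, ← iv_iff (hB1 _).2 hχ h2 h4,
      ← iv_iff (hB1 _).2 hχ h2 h4]
  choose F hF hF1 hF2 using h1
  have h2 : ∀ z z', ∀ γ : (ZMod (p ^ k * q ^ l * e'))ˣ, γ • F z = F z' → z = z' := by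
    intro z z' γ h
    have h3 : ∀ Z, Iv Z (F z') ↔ Iv Z (F z) := fun Z =>
      h ▸ iv_pw hM.ne hM.exp (ZMod.val_coe_unit_coprime γ) (hF z)
    have h4 : ∀ {C : ℕ → Subgroup G} {i j : ℕ}, Monotone C → Iv (C i) (F z) →
        ¬ Iv (C (j + 1)) (F z) → i ≤ j := fun hC h5 h6 =>
      le_of_not_gt fun h7 => h6 fun g x hx => h5 g x (hC h7 hx)
    have h5 := hF2 z
    have h6 := hF2 z'
    simp only [h3] at h6
    exact Prod.ext (Fin.ext (le_antisymm (h4 hA h5.1.1 h6.1.2) (h4 hA h6.1.1 h5.1.2)))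
      (Fin.ext (le_antisymm (h4 hB h5.2.1 h6.2.2) (h4 hB h6.2.1 h5.2.2)))
  have hn : p ^ k * q ^ l ∣ p ^ k * q ^ l * e' := Dvd.intro _ rfl
  obtain ⟨x, y, h3, h4, h5⟩ := units_two hp hq hp2 hq2 hpq hn
  obtain ⟨D₁, h6, h7⟩ := exists_D hp hma k
  obtain ⟨D₂, h8, h9⟩ := exists_D hq hma l
  let S := (IF G).filter (FixN (p ^ k * q ^ l) (p ^ k * q ^ l * e') ⊤)
  have hker : ∀ χ ∈ S, ∀ v, ZMod.unitsMap hn v = 1 → v • χ = χ := fun χ hχ v hv => by
    funext x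
    refine (Finset.mem_filter.mp hχ).2 _ (ZMod.val_coe_unit_coprime _) ?_ (mem_top x)
    rw [← ZMod.natCast_eq_natCast_iff, ZMod.natCast_val, ← ZMod.unitsMap_val hn, hv]; simp
  have h10 := two_gen x y S (fun γ χ hχ => by
      obtain ⟨h11, h12⟩ := Finset.mem_filter.mp hχ
      refine Finset.mem_filter.mpr ⟨mem_IF.mpr (smul_irr hM.exp (mem_IF.mp h11) γ),
        fun s h13 h14 g _ => ?_⟩
      have := h12 s h13 h14 (mem_top (g ^ (γ : ZMod (p ^ k * q ^ l * e')).val))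
      simp only [pw] at this
      rwa [← pow_mul, mul_comm, pow_mul] at this)
    (fun γ => by
      obtain ⟨i, j, h⟩ := h3 γ
      refine ⟨i, j, fun χ hχ => ?_⟩
      rw [← inv_smul_eq_iff, ← mul_smul]
      exact hker χ hχ _ (by rw [map_mul, map_inv, h, inv_mul_cancel]))
    (fun U => by
      refine le_trans ?_ (hm.stab hM.exp U)
      rw [← Set.ncard_coe_finset]
      refine Set.ncard_le_ncard (fun χ hχ => ?_) (irr_finite.subset fun _ h => h.1)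
      obtain ⟨h11, h12⟩ := Finset.mem_filter.mp hχ
      exact ⟨mem_IF.mp (Finset.mem_filter.mp h11).1, h12⟩)
    (Finset.univ.image F)
    (fun χ hχ => by
      obtain ⟨z, -, rfl⟩ := Finset.mem_image.mp hχ
      exact Finset.mem_filter.mpr ⟨mem_IF.mpr (hF z), hF1 z⟩)
    (fun r hr r' hr' γ h => by
      obtain ⟨z, -, rfl⟩ := Finset.mem_image.mp hr
      obtain ⟨z', -, rfl⟩ := Finset.mem_image.mp hr'
      rw [h2 z z' γ h])
    (fun χ hχ => hker χ hχ _ h4) (fun χ hχ => hker χ hχ _ h5) D₁ D₂ h7 h9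
  rw [Finset.card_image_of_injective _ fun z z' h => h2 z z' 1 ((one_smul _ _).trans h)] at h10
  simp only [Finset.card_univ, Fintype.card_prod, Fintype.card_fin] at h10
  exact h10.trans (by gcongr)

theorem fact_le (hp : p.Prime) (hq : q.Prime) (hpq : p ≠ q) (hm : Hyp m G) (hma : m < 2 ^ a)
    {Y : Subgroup G} [Y.Normal] (hY : ∀ x ∈ commutator G, ∃ k, x ^ q ^ k ∈ Y) :
    (Nat.card G).factorization p - 20 * a ^ 2 ≤
      (Nat.card (commutator G ⊓ Y : Subgroup G)).factorization p := by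
  have h1 := hm.index_le hma 1
  rw [derivedSeries_one] at h1
  have h2 : (commutator G).index.factorization p ≤ 20 * a ^ 2 := by
    have h3 := (Nat.pow_le_pow_left hp.two_le _).trans
      ((Nat.ordProj_le p FiniteIndex.index_ne_zero).trans h1)
    exact ((Nat.pow_le_pow_iff_right one_lt_two).mp h3).trans (le_of_eq (by ring))
  have h3 : ¬ p ∣ (commutator G ⊓ Y).relIndex (commutator G) := by
    have := Fintype.ofFinite (G ⧸ Y)
    rw [inf_relIndex_left, ← QuotientGroup.ker_mk' Y, relIndex_ker]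
    refine not_dvd_card hp ?_
    rintro _ ⟨x, hx, rfl⟩
    obtain ⟨k, hk⟩ := hY x hx
    exact ⟨q ^ k, fun h => hpq ((Nat.prime_dvd_prime_iff_eq hp hq).mp (hp.dvd_of_dvd_pow h)),
      by rw [← map_pow]; exact (QuotientGroup.eq_one_iff _).mpr hk⟩
  rw [← (commutator G).card_mul_index, Nat.factorization_mul Nat.card_pos.ne'
    FiniteIndex.index_ne_zero, ← card_mul_rel (inf_le_left : commutator G ⊓ Y ≤ _),
    Nat.factorization_mul Nat.card_pos.ne' (by rintro h0; exact h3 (h0 ▸ dvd_zero p) :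
      (commutator G ⊓ Y).relIndex (commutator G) ≠ 0)]
  simp only [Finsupp.add_apply, Nat.factorization_eq_zero_of_not_dvd h3]
  omega

theorem two_prime (hp : p.Prime) (hq : q.Prime) (hp2 : p ≠ 2) (hq2 : q ≠ 2) (hpq : p ≠ q)
    (hma : m < 2 ^ a) (n : ℕ) : ∀ (G : Type) [Group G] [Fintype G] [Group.IsSolvable G],
      Nat.card G = n → Hyp m G → PS p G → PS q G →
      ((Nat.card G).factorization p - 20 * a ^ 2) * ((Nat.card G).factorization q - 20 * a ^ 2) ≤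
        m * ((p - 1).divisors.card * a * ((q - 1).divisors.card * a)) := by
  induction n using Nat.strong_induction_on with
  | _ n ih =>
  intro G _ _ _ hn hm h h'
  obtain ⟨Y, hY, h1, h3⟩ := exists_Y hp _ G rfl h
  obtain ⟨Y', hY', h1', h3'⟩ := exists_Y hq _ G rfl h'
  by_cases h0 : Y ⊓ Y' ≠ ⊥
  · have : Fintype (G ⧸ (Y ⊓ Y')) := Fintype.ofFinite _
    have hf := QuotientGroup.mk'_surjective (Y ⊓ Y')
    rw [← fact_quot (Y ⊓ Y') fun h => h1 (h.trans (card_dvd_of_le inf_le_left)),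
      ← fact_quot (Y ⊓ Y') fun h => h1' (h.trans (card_dvd_of_le inf_le_right))]
    exact ih _ (hn ▸ card_quot_lt h0) _ rfl (hm.of_surj _ hf) (h.of_surj _ hf) (h'.of_surj _ hf)
  replace h0 := not_not.mp h0
  have he : Nat.card G ≠ 0 := Nat.card_pos.ne'
  have := Fact.mk hp
  have := Fact.mk hq
  have hA : IsPGroup p (commutator G ⊓ Y' : Subgroup G) := fun x => by
    obtain ⟨k, hk⟩ := h3 x x.2.1
    exact ⟨k, Subtype.ext (mem_bot.mp (h0 ▸ ⟨hk, pow_mem x.2.2 _⟩ : _ ∈ (⊥ : Subgroup G)))⟩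
  have hB : IsPGroup q (commutator G ⊓ Y : Subgroup G) := fun x => by
    obtain ⟨k, hk⟩ := h3' x x.2.1
    exact ⟨k, Subtype.ext (mem_bot.mp (h0 ▸ ⟨pow_mem x.2.2 _, hk⟩ : _ ∈ (⊥ : Subgroup G)))⟩
  obtain ⟨α, hα⟩ := IsPGroup.iff_card.mp hA
  obtain ⟨β, hβ⟩ := IsPGroup.iff_card.mp hB
  have h4 := fact_le hp hq hpq hm hma h3'
  have h5 := fact_le hq hp hpq.symm hm hma h3
  rw [hα, hp.factorization_pow, Finsupp.single_eq_same] at h4
  rw [hβ, hq.factorization_pow, Finsupp.single_eq_same] at h5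
  obtain ⟨A, hA1, hA2, hA3⟩ := chain hp h inferInstance hα
  obtain ⟨B, hB1, hB2, hB3⟩ := chain hq h' inferInstance hβ
  obtain ⟨k, e₁, h6, h7⟩ := Nat.exists_eq_pow_mul_and_not_dvd he p hp.ne_one
  obtain ⟨l, e', h8, h9⟩ := Nat.exists_eq_pow_mul_and_not_dvd (right_ne_zero_of_mul (h7 ▸ he)) q
    hq.ne_one
  rw [h9, ← mul_assoc] at h7
  have hco : ∀ i j, (p ^ i * q ^ j).Coprime e' := fun i j => Nat.Coprime.mul_left
    ((hp.coprime_iff_not_dvd.mpr fun h => h6 (h9 ▸ h.mul_left _)).pow_left _)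
    ((hq.coprime_iff_not_dvd.mpr h8).pow_left _)
  obtain ⟨M, hM, h10⟩ := exists_hall (G := G) (hco k l) (h7 ▸ he)
    (fun g => h7 ▸ pow_card_eq_one') fun x hx => by
      obtain ⟨i, hi⟩ := h3 x hx
      obtain ⟨j, hj⟩ := h3' x hx
      have h11 : x ^ (p ^ i * q ^ j) = 1 := mem_bot.mp (h0 ▸ ⟨by rw [pow_mul]; exact pow_mem hi _,
        by rw [mul_comm, pow_mul]; exact pow_mem hj _⟩)
      exact orderOf_dvd_iff_pow_eq_one.mp (((hco i j).coprime_dvd_left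
        (orderOf_dvd_of_pow_eq_one h11)).dvd_of_dvd_mul_right (h7 ▸ orderOf_dvd_natCard x))
  exact (Nat.mul_le_mul h4 h5).trans (cells_le hp hq hp2 hq2 hpq hm hma hM hA1 hB1
    (fun i => ⟨(hA2 i).1, (hA2 i).2.trans (inf_le_left.trans h10)⟩)
    (fun i => ⟨(hB2 i).1, (hB2 i).2.trans (inf_le_left.trans h10)⟩) hA3 hB3 fun i j =>
      (disjoint_iff.mpr h0).symm.mono ((hA2 i).2.trans inf_le_right) ((hB2 j).2.trans inf_le_right))

end Pool.Agent.P.MP_530519_al
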