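import Pool.Agent.P.MP_530519_al.Final
import Pool.Agent.P.MP_530519_al.SS.One
import Pool.Agent.P.MP_530519_al.SS.Two

/-! The logarithmic bound for solvable groups with chief factors of prime or bounded order. -/

namespace Pool.Agent.P.MP_530519_al

open scoped Classical

theorem succ_pow_le {k : ℕ} (hk : k ≠ 0) (j : ℕ) : (j + 1) ^ k ≤ k ^ k * 2 ^ j := by
  have h1 : j + 1 ≤ k * 2 ^ (j / k) :=
    (Nat.lt_mul_div_succ j (Nat.pos_of_ne_zero hk)).trans_le
      (Nat.mul_le_mul_left _ Nat.lt_two_pow_self)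
  refine (Nat.pow_le_pow_left h1 k).trans ?_
  rw [mul_pow, ← pow_mul]
  exact Nat.mul_le_mul_left _ (Nat.pow_le_pow_right two_pos (Nat.div_mul_le_self _ _))

theorem tau_pow_le {k : ℕ} (hk : k ≠ 0) : ∃ C : ℕ, 1 ≤ C ∧ ∀ n : ℕ, n.divisors.card ^ k ≤ C * n := by
  have h0 : 1 ≤ k ^ k := Nat.pos_of_ne_zero (pow_ne_zero _ hk)
  refine ⟨(k ^ k) ^ 2 ^ k, Nat.one_le_pow _ _ h0, fun n => ?_⟩
  rcases eq_or_ne n 0 with rfl | hn
  · simp [hk]
  rw [Nat.card_divisors hn, ← Finset.prod_pow]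
  calc _ ≤ ∏ p ∈ n.primeFactors, ((if p < 2 ^ k then k ^ k else 1) * p ^ n.factorization p) := by
        refine Finset.prod_le_prod' fun p hp => ?_
        split_ifs with h
        · exact (succ_pow_le hk _).trans (Nat.mul_le_mul_left _
            (Nat.pow_le_pow_left (Nat.prime_of_mem_primeFactors hp).two_le _))
        · rw [one_mul]
          refine (Nat.pow_le_pow_left Nat.lt_two_pow_self k).trans ?_
          rw [← pow_mul, mul_comm, pow_mul]
          exact Nat.pow_le_pow_left (not_lt.mp h) _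
    _ ≤ _ := by
        rw [Finset.prod_mul_distrib, ← Finset.prod_filter, Finset.prod_const]
        refine Nat.mul_le_mul (Nat.pow_le_pow_right h0 ?_)
          (le_of_eq (Nat.prod_factorization_pow_eq_self hn))
        exact (Finset.card_le_card fun p hp =>
          Finset.mem_range.mpr (Finset.mem_filter.mp hp).2).trans (Finset.card_range _).le

theorem le_of_pow {x K s : ℝ} {n : ℕ} (hn : n ≠ 0) (hK : 1 ≤ K) (hs : 0 ≤ s)
    (h : x ^ n ≤ K * s ^ n) : x ≤ K * s := by
  refine le_of_pow_le_pow_left₀ hn (by positivity) (h.trans ?_)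
  rw [mul_pow]
  exact mul_le_mul_of_nonneg_right (le_self_pow₀ hK hn) (by positivity)

theorem log_pow_le (p : ℕ) (hp : 0 < p) (n : ℕ) : Real.log p ^ n ≤ n.factorial * p := by
  have := Real.pow_div_factorial_le_exp (Real.log p) (Real.log_natCast_nonneg p) n
  rwa [Real.exp_log (by exact_mod_cast hp), div_le_iff₀' (by positivity)] at this

/-- The quantities that are smaller than every power of `m`. -/
theorem exists_C : ∃ C : ℝ, 1 ≤ C ∧ (∀ p : ℕ, 0 < p → (p - 1).divisors.card * Real.log p ≤ C * p) ∧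
    ∀ (m : ℕ) (s : ℝ), 1 ≤ m → 0 ≤ s → s ^ 32 = m → ((Nat.log 2 m + 1 : ℕ) : ℝ) ≤ C * s ∧
      (2 : ℝ) ^ (4 * (Nat.log 2 (Nat.log 2 m + 1) + 13) ^ 4) ≤ C * s ∧ ∀ p : ℕ, 2 ≤ p →
      p - 1 ≤ 32 * (m * (p - 1).divisors.card) ^ 2 →
        ((p - 1).divisors.card : ℝ) ≤ C * s ∧ Real.log p ≤ C * s := by
  obtain ⟨C₂, h2, h2'⟩ := tau_pow_le two_ne_zero
  obtain ⟨C₆, h6, h6'⟩ := tau_pow_le (k := 6) (by norm_num)
  obtain ⟨C₉, h9, h9'⟩ := tau_pow_le (k := 96) (by norm_num)
  obtain ⟨C₀, h0, h0'⟩ := small_factor (ε := ((32 : ℕ) : ℝ)⁻¹) (by norm_num)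
  obtain ⟨K, hK, hK'⟩ : ∃ K : ℕ, 1 ≤ K ∧ ∀ m p : ℕ, 2 ≤ p →
      p - 1 ≤ 32 * (m * (p - 1).divisors.card) ^ 2 → p ≤ K * m ^ 3 := by
    refine ⟨2 * (32 ^ 3 * C₆), by omega, fun m p hp h => ?_⟩
    have h1 : (p - 1) ^ 2 * (p - 1) ≤ 32 ^ 3 * C₆ * (m ^ 3) ^ 2 * (p - 1) :=
      calc _ = (p - 1) ^ 3 := by ring
        _ ≤ (32 * (m * (p - 1).divisors.card) ^ 2) ^ 3 := Nat.pow_le_pow_left h 3
        _ = 32 ^ 3 * (m ^ 3) ^ 2 * (p - 1).divisors.card ^ 6 := by ring
        _ ≤ 32 ^ 3 * (m ^ 3) ^ 2 * (C₆ * (p - 1)) := Nat.mul_le_mul_left _ (h6' _)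
        _ = _ := by ring
    have h3 : ((p - 1 : ℕ) : ℝ) ≤ (32 ^ 3 * C₆ : ℕ) * (m ^ 3 : ℕ) :=
      le_of_pow two_ne_zero (by exact_mod_cast (by omega)) (by positivity)
        (by exact_mod_cast Nat.le_of_mul_le_mul_right h1 (by omega))
    have h4 : p - 1 ≤ 32 ^ 3 * C₆ * m ^ 3 := by exact_mod_cast h3
    rw [mul_assoc 2]
    omega
  obtain ⟨F, hF, hF'⟩ : ∃ F : ℕ, 1 ≤ F ∧ ∀ p : ℕ, 0 < p → Real.log p ^ 96 ≤ F * p :=
    ⟨_, Nat.factorial_pos 96, fun p hp => log_pow_le p hp 96⟩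
  have e1 : (1 : ℝ) ≤ C₂ * 2 := by exact_mod_cast (by omega)
  have e2 : (1 : ℝ) ≤ C₉ * K := by exact_mod_cast Nat.mul_pos h9 hK
  have e3 : (1 : ℝ) ≤ F * K := by exact_mod_cast Nat.mul_pos hF hK
  have e4 : (1 : ℝ) ≤ 32 ^ 32 := by norm_num
  refine ⟨C₂ * 2 + C₀ + C₉ * K + F * K + 32 ^ 32, by linarith, fun p hp => ?_,
    fun m s hm hs hsm => ⟨?_, ?_, fun p hp h => ⟨?_, ?_⟩⟩⟩
  · refine (le_of_pow (s := p) two_ne_zero e1 (by positivity) ?_).trans (by gcongr; linarith)
    have h1 : ((p - 1).divisors.card : ℝ) ^ 2 ≤ C₂ * p := by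
      exact_mod_cast (h2' _).trans (Nat.mul_le_mul_left _ (Nat.sub_le p 1))
    have h3 := log_pow_le p hp 2
    calc _ = ((p - 1).divisors.card : ℝ) ^ 2 * Real.log p ^ 2 := mul_pow ..
      _ ≤ (C₂ * p) * ((2 : ℕ).factorial * p) := by gcongr
      _ = _ := by simp; ring
  · refine (le_of_pow (n := 32) (by norm_num) e4 hs ?_).trans (by gcongr; linarith)
    rw [hsm]
    exact_mod_cast (succ_pow_le (by norm_num) _).trans
      (Nat.mul_le_mul_left _ (Nat.pow_log_le_self 2 (by omega)))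
  · refine (h0' m hm).trans ?_
    rw [← hsm, Real.pow_rpow_inv_natCast hs (by norm_num)]
    gcongr; linarith
  · refine (le_of_pow (n := 96) (by norm_num) e2 hs ?_).trans (by gcongr; linarith)
    rw [show 96 = 32 * 3 from rfl, pow_mul s, hsm, mul_assoc]
    exact_mod_cast (h9' _).trans (Nat.mul_le_mul_left _ ((Nat.sub_le p 1).trans (hK' m p hp h)))
  · refine (le_of_pow (n := 96) (by norm_num) e3 hs ((hF' p (by omega)).trans ?_)).trans
      (by gcongr; linarith)
    rw [show 96 = 32 * 3 from rfl, pow_mul s, hsm, mul_assoc]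
    gcongr
    exact_mod_cast hK' m p hp h

theorem omega_le' {G : Type} [Group G] [Fintype G] [Group.IsSolvable G] {m a β : ℕ}
    (hma : m < 2 ^ a) (ha : a ≤ 2 ^ β) (hm : Hyp m G) :
    (Nat.card G).primeFactors.card ≤ 2 ^ (4 * (β + 12) ^ 4) := by
  have h2 := hm.omega_card hma ha
  have ha1 := hm.one_le hma
  have hx : a ≤ a * (20 * a) ^ dd β := Nat.le_mul_of_pos_right _ (by positivity)
  have h5 : a * (20 * a) ^ dd β ≤ 2 ^ ((β + 5) * (dd β + 1)) := by
    rw [pow_mul, pow_succ']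
    have : 20 * a ≤ 2 ^ (β + 5) := by rw [pow_add]; omega
    exact Nat.mul_le_mul (by omega) (Nat.pow_le_pow_left this _)
  calc _ ≤ 2 ^ ((β + 5) * (dd β + 1) + 2) := by rw [pow_add]; omega
    _ ≤ _ := by
      refine Nat.pow_le_pow_right (by norm_num) ?_
      unfold dd
      ring_nf
      omega

theorem log_bound_of_chief (B : ℕ) : ∃ c : ℝ, 0 < c ∧
    ∀ (G : Type) [Group G] [Finite G] [Group.IsSolvable G],
      (∀ N M : Subgroup G, IsChief N M → (N.relIndex M).Prime ∨ N.relIndex M ≤ B) →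
      c * Real.log (Nat.card G) ≤ mult G := by
  obtain ⟨C, hC, h1, h2⟩ := exists_C
  set K : ℝ := (B + 1) * (32 * (B + 2)) * (B + 2)
  refine ⟨((B + 3) * K + 768 * C ^ 3 + 21 * C ^ 4)⁻¹, by positivity, fun G _ _ _ h => ?_⟩
  have := Fintype.ofFinite G
  have hm := hyp_mult (G := G)
  generalize mult G = m at hm
  obtain ⟨s, hs, hsm⟩ : ∃ s : ℝ, 1 ≤ s ∧ s ^ 32 = m := ⟨(m : ℝ) ^ ((32 : ℕ) : ℝ)⁻¹,
    Real.one_le_rpow (by exact_mod_cast hm.pos) (by positivity),
    Real.rpow_inv_natCast_pow (by positivity) (by norm_num)⟩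
  obtain ⟨h3, h4, h5⟩ := h2 m s hm.pos (by linarith) hsm
  have hma := Nat.lt_pow_succ_log_self one_lt_two m
  have h6 : ((Nat.card G).primeFactors.card : ℝ) ≤ C * s := le_trans (by
    exact_mod_cast omega_le' hma (Nat.lt_pow_succ_log_self one_lt_two _).le hm) h4
  rw [Nat.succ_eq_add_one] at hma
  generalize Nat.log 2 m + 1 = a at *
  set v := (Nat.card G).factorization
  have hP : ∀ p : ℕ, p.Prime → B + 2 < p → PS p G := fun p hp hB N M hc => by
    refine or_iff_not_imp_right.mpr fun hd => (h N M hc).elim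
      (fun h7 => ((Nat.prime_dvd_prime_iff_eq hp h7).mp (not_not.mp hd)).symm) fun h7 => ?_
    have := Nat.le_of_dvd (Nat.pos_of_ne_zero Subgroup.FiniteIndex.index_ne_zero) (not_not.mp hd)
    change p ≤ N.relIndex M at this
    omega
  have hL : ∀ p ∈ (Nat.card G).primeFactors, B + 2 < p →
      (((p - 1).divisors.card : ℝ) ≤ C * s ∧ Real.log p ≤ C * s) ∧
      v p * Real.log p ≤ 768 * C ^ 3 * m := fun p hp hB => by
    have hp' := Nat.prime_of_mem_primeFactors hp
    obtain ⟨h7, h8⟩ := one_prime hp' (by omega) _ G rfl hm (hP p hp' hB)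
    have h9 := h5 p hp'.two_le ((pred_le_ps (Finsupp.mem_support_iff.mp hp)).trans h8)
    refine ⟨h9, ?_⟩
    have h10 := Real.log_natCast_nonneg p
    rcases Nat.lt_or_ge (v p) (2 * p) with h11 | h11
    · have h12 : (v p : ℝ) ≤ 768 * C ^ 2 * s ^ 22 := by
        have h14 : (1 : ℝ) ≤ 768 * C ^ 2 := by nlinarith
        rcases Nat.lt_or_ge (v p) 2 with h13 | h13
        · exact le_trans (by exact_mod_cast (by omega : v p ≤ 1))
            (one_le_mul_of_one_le_of_one_le h14 (one_le_pow₀ hs))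
        have h15 : v p ^ 3 ≤ 768 * (m * (p - 1).divisors.card) ^ 2 :=
          calc v p ^ 3 = v p * v p * v p := by ring
            _ ≤ (2 * p) * (3 * (p - 1)) * (3 * (v p / 2)) := by gcongr <;> omega
            _ = 18 * (p * (p - 1) * (v p / 2)) := by ring
            _ ≤ 18 * (32 * (m * (p - 1).divisors.card) ^ 2) :=
              Nat.mul_le_mul_left _ ((le_ps _ _).trans h8)
            _ ≤ _ := by omega
        refine le_of_pow three_ne_zero h14 (by positivity) ?_
        calc _ ≤ 768 * ((m : ℝ) * (p - 1).divisors.card) ^ 2 := by exact_mod_cast h15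
          _ ≤ 768 * (s ^ 32 * (C * s)) ^ 2 := by rw [hsm]; gcongr; exact h9.1
          _ = _ := by ring
      calc _ ≤ 768 * C ^ 2 * s ^ 22 * (C * s) := by gcongr; exact h9.2
        _ = 768 * C ^ 3 * s ^ 23 := by ring
        _ ≤ _ := by rw [← hsm]; gcongr; norm_num
    · have h12 : p * v p ≤ 128 * m * (p - 1).divisors.card := by nlinarith
      have h13 : (p : ℝ) * v p ≤ 128 * m * (p - 1).divisors.card := by exact_mod_cast h12
      have h14 : (0 : ℝ) < p := by exact_mod_cast hp'.pos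
      refine le_of_mul_le_mul_left ?_ h14
      calc _ = p * v p * Real.log p := by ring
        _ ≤ 128 * m * (p - 1).divisors.card * Real.log p := by gcongr
        _ = 128 * m * ((p - 1).divisors.card * Real.log p) := by ring
        _ ≤ 768 * m * (C ^ 3 * p) := by
          gcongr ?_ * _ * ?_
          · norm_num
          · exact (h1 p hp'.pos).trans
              (mul_le_mul_of_nonneg_right (le_self_pow₀ hC (by norm_num)) h14.le)
        _ = _ := by ring
  obtain ⟨r, hr⟩ : ∃ r, ∀ q ∈ (Nat.card G).primeFactors, B + 2 < q →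
      (r ∈ (Nat.card G).primeFactors ∧ B + 2 < r) ∧ v q ≤ v r := by
    rcases ((Nat.card G).primeFactors.filter (B + 2 < ·)).eq_empty_or_nonempty with h7 | h7
    · exact ⟨0, fun q h8 h9 => absurd (Finset.mem_filter.mpr ⟨h8, h9⟩) (h7 ▸ Finset.notMem_empty q)⟩
    · obtain ⟨r, h8, h9⟩ := Finset.exists_max_image _ v h7
      exact ⟨r, fun q h10 h11 =>
        ⟨Finset.mem_filter.mp h8, h9 q (Finset.mem_filter.mpr ⟨h10, h11⟩)⟩⟩
  have h7 : ∀ p ∈ (Nat.card G).primeFactors, v p * Real.log p ≤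
      (if p ∈ Finset.range (B + 3) then K * m else 0) + (if p = r then 768 * C ^ 3 * m else 0) +
        21 * C ^ 3 * s ^ 19 := fun p hp => by
    have hp' := Nat.prime_of_mem_primeFactors hp
    have h10 := Real.log_natCast_nonneg p
    have e1 : (0 : ℝ) ≤ if p ∈ Finset.range (B + 3) then K * m else 0 := by positivity
    have e2 : (0 : ℝ) ≤ if p = r then 768 * C ^ 3 * m else 0 := by positivity
    have e3 : (0 : ℝ) ≤ 21 * C ^ 3 * s ^ 19 := by positivity
    rcases Nat.lt_or_ge (B + 2) p with hB | hB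
    · by_cases hpr : p = r
      · rw [if_pos hpr]
        linarith [(hL p hp hB).2]
      obtain ⟨⟨h11, h12⟩, h13⟩ := hr p hp hB
      have hr' := Nat.prime_of_mem_primeFactors h11
      have h14 := two_prime hp' hr' (by omega) (by omega) hpr hma _ G rfl hm (hP p hp' hB)
        (hP r hr' h12)
      have h15 : (v p - 20 * a ^ 2) ^ 2 ≤
          m * ((p - 1).divisors.card * a * ((r - 1).divisors.card * a)) :=
        le_trans (by rw [sq]; gcongr) h14
      have h16 : ((v p - 20 * a ^ 2 : ℕ) : ℝ) ≤ C ^ 2 * s ^ 18 := by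
        refine le_of_pow_le_pow_left₀ two_ne_zero (by positivity) ?_
        calc _ ≤ (m : ℝ) * ((p - 1).divisors.card * a * ((r - 1).divisors.card * a)) := by
              exact_mod_cast h15
          _ ≤ s ^ 32 * (C * s * (C * s) * (C * s * (C * s))) := by
              rw [hsm]; gcongr
              exacts [(hL p hp hB).1.1, (hL r h11 h12).1.1]
          _ = _ := by ring
      have h17 : (v p : ℝ) ≤ (v p - 20 * a ^ 2 : ℕ) + 20 * a ^ 2 := by exact_mod_cast le_tsub_add
      have h18 : (v p : ℝ) ≤ 21 * C ^ 2 * s ^ 18 :=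
        calc _ ≤ C ^ 2 * s ^ 18 + 20 * (C * s) ^ 2 := h17.trans (by gcongr)
          _ = C ^ 2 * s ^ 18 + 20 * C ^ 2 * s ^ 2 := by ring
          _ ≤ C ^ 2 * s ^ 18 + 20 * C ^ 2 * s ^ 18 := by gcongr; norm_num
          _ = _ := by ring
      have h19 : v p * Real.log p ≤ 21 * C ^ 2 * s ^ 18 * (C * s) := by
        gcongr; exact (hL p hp hB).1.2
      linarith
    · rw [if_pos (Finset.mem_range.mpr (by omega))]
      have h11 : (v p : ℝ) ≤ (B + 1) * (32 * m * p) := by exact_mod_cast small_prime hp' hm h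
      have h12 : (p : ℝ) ≤ B + 2 := by exact_mod_cast hB
      have h13 : v p * Real.log p ≤ (B + 1) * (32 * m * (B + 2)) * (B + 2) := by
        gcongr
        · exact h11.trans (by gcongr)
        · exact (Real.log_le_self (by positivity)).trans h12
      have h14 : K * m = (B + 1) * (32 * m * (B + 2)) * (B + 2) := by simp only [K]; ring
      linarith
  rw [inv_mul_le_iff₀ (by positivity), Real.log_nat_eq_sum_factorization]
  refine (Finset.sum_le_sum h7).trans ?_
  rw [Finset.sum_add_distrib, Finset.sum_add_distrib, add_mul, add_mul]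
  gcongr
  · rw [← Finset.sum_filter, Finset.sum_const, nsmul_eq_mul, mul_assoc _ K]
    gcongr
    exact_mod_cast (Finset.card_le_card fun p hp => (Finset.mem_filter.mp hp).2).trans
      (Finset.card_range (B + 3)).le
  · rw [Finset.sum_ite_eq']
    split_ifs
    · rfl
    · positivity
  · rw [Finset.sum_const, nsmul_eq_mul, ← hsm]
    calc _ ≤ C * s * (21 * C ^ 3 * s ^ 19) := by gcongr
      _ = 21 * C ^ 4 * s ^ 20 := by ring
      _ ≤ _ := by gcongr; norm_num

end Pool.Agent.P.MP_530519_al
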