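import Pool.Agent.P.MP_530519_al.SS.Canon

/-! Characters that are trivial or not on normal subgroups. -/

namespace Pool.Agent.P.MP_530519_al

open Set Subgroup
open scoped Classical

variable {G : Type} [Group G] [Fintype G] {A B M P : Subgroup G} {a b χ ψ : G → ℂ}

/-- Invariance under translation by `A`. -/
def Iv (A : Subgroup G) (χ : G → ℂ) : Prop := ∀ g, ∀ x ∈ A, χ (g * x) = χ g

theorem sum_iv [hA : A.Normal] (hχ : χ ∈ Irr G) (g : G) :
    (∑ x, if x ∈ A then χ (g * x) else 0) = if Iv A χ then Nat.card A * χ g else 0 := by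
  split_ifs with h
  · rw [← sum_ite_one]
    exact Finset.sum_congr rfl fun x _ => by split_ifs with hx <;> simp [h g x, hx]
  have h1 := irr_one_ne hχ
  set r := (∑ x, if x ∈ A then χ x⁻¹ else 0) / χ 1 with hr
  have key : ∀ g, (∑ x, if x ∈ A then χ (g * x) else 0) = r * χ g := by
    intro g
    have h2 := irr_conv (c := fun x => (if x ∈ A then 1 else 0) - if x = 1 then r else 0) hχ
      (fun y x => by simp [(nm_top A).mem_iff (mem_top y)])
      (by simp [ip, sub_mul, Finset.sum_sub_distrib, hr, div_mul_cancel₀ _ h1]) g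
    simp only [sub_mul, Finset.sum_sub_distrib, ite_mul, one_mul, zero_mul, Finset.sum_ite_eq',
      Finset.mem_univ, if_true, inv_one, sub_eq_zero] at h2
    rw [← h2, ← Equiv.sum_comp (Equiv.inv G)]
    refine Finset.sum_congr rfl fun x _ => ?_
    simp only [Equiv.inv_apply, inv_mem_iff]
    rw [← (RepCh.of_irr hχ).conj g (x⁻¹ * g)]
    congr 2; group
  by_contra h0
  rw [key] at h0
  refine h fun g y hy => mul_left_cancel₀ (left_ne_zero_of_mul h0) ?_
  rw [← key, ← key, ← Equiv.sum_comp (Equiv.mulLeft y) fun x => if x ∈ A then χ (g * x) else 0]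
  simp [A.mul_mem_cancel_left hy, mul_assoc]

theorem ipH_iv [hA : A.Normal] (hM : A ≤ M) (ha : Iv A a) (hχ : χ ∈ Irr G) (h : ¬ Iv A χ) :
    ipH M χ a = 0 := by
  have h1 : ∀ x ∈ A, (∑ g, if g ∈ M then χ (g * x) * a g⁻¹ else 0) =
      ∑ g, if g ∈ M then χ g * a g⁻¹ else 0 := by
    intro x hx
    rw [← Equiv.sum_comp (Equiv.mulRight x) fun g => if g ∈ M then χ g * a g⁻¹ else 0]
    refine Finset.sum_congr rfl fun g _ => ?_
    simp only [Equiv.coe_mulRight, M.mul_mem_cancel_right (hM hx)]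
    rw [← ha g⁻¹ _ (hA.conj_mem _ (A.inv_mem hx) g)]
    congr 3; group
  have h2 : (Nat.card A : ℂ) * ∑ g, (if g ∈ M then χ g * a g⁻¹ else 0) = 0 := by
    rw [← sum_ite_one, Finset.sum_congr rfl (g := fun x => ∑ g,
      if g ∈ M then (if x ∈ A then χ (g * x) else 0) * a g⁻¹ else 0), Finset.sum_comm]
    · refine Finset.sum_eq_zero fun g _ => ?_
      split_ifs
      · rw [← Finset.sum_mul, sum_iv hχ, if_neg h, zero_mul]
      · simp
    · intro x _
      split_ifs with hx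
      · exact (h1 x hx).symm
      · simp
  rw [ipH, (mul_eq_zero.mp h2).resolve_left (cardH_ne A), mul_zero]

theorem iv_iff [A.Normal] (hM : A ≤ M) (hχ : χ ∈ Irr G) (hψ : ψ ∈ Irr G) (h : mu M χ ψ ≠ 0) :
    Iv A χ ↔ Iv A ψ := by
  constructor <;> intro h1 <;> by_contra h2
  · exact h (mu_of_ipH (by rw [ipH_comm, ipH_iv hM h1 hψ h2]; simp))
  · exact h (mu_of_ipH (by rw [ipH_iv hM h1 hχ h2]; simp))

theorem iv_pw {e s : ℕ} (he : e ≠ 0) (hG : ∀ g : G, g ^ e = 1) (hs : s.Coprime e)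
    (hχ : χ ∈ Irr G) : Iv A (pw s χ) ↔ Iv A χ := by
  obtain ⟨σ, hσ⟩ := exists_gal he hs
  simp only [Iv, pw, ← (RepCh.of_irr hχ).map_eq _ (hG _) σ hσ, σ.injective.eq_iff]

theorem ipH_top (a b : G → ℂ) : ipH ⊤ a b = ip a b := by simp [ipH, ip]

theorem block_le [M.Normal] (hψ : ψ ∈ Irr G) :
    ∑ χ ∈ (IF G).filter (fun χ => mu M χ ψ ≠ 0), mu M χ χ ≤ M.index := by
  have hψ' := ir_top.mpr hψ
  obtain ⟨θ, hθ, h1⟩ := exists_under (le_top : M ≤ ⊤) hψ'
  have h2 : ∑ χ ∈ IF G, (if mu M χ θ ≠ 0 then mu M χ χ else 0) = M.index := by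
    have h3 := congrFun (class_eq_sum (c := ind M ⊤ θ)
      fun g x => ind_cl M ⊤ θ g trivial x trivial) 1
    have h4 : ind M ⊤ θ 1 = M.index * θ 1 := by
      have := cardH_ne M
      simp only [ind, mem_top, mul_one, mul_inv_cancel, M.one_mem, and_self, if_true,
        Finset.sum_const, Finset.card_univ, nsmul_eq_mul, ← Nat.card_eq_fintype_card,
        ← M.card_mul_index, Nat.cast_mul]
      field_simp
    have h5 : ((∑ χ ∈ IF G, (if mu M χ θ ≠ 0 then mu M χ χ else 0) : ℕ) : ℂ) * θ 1 =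
        M.index * θ 1 := by
      rw [← h4, h3, Finset.sum_apply, Nat.cast_sum, Finset.sum_mul]
      refine Finset.sum_congr rfl fun χ hχ => ?_
      have hχ' := ir_top.mpr (mem_IF.mp hχ)
      rw [Pi.smul_apply, smul_eq_mul, ← ipH_top, ipH_ind le_top θ hχ'.ch.cl, ipH_comm,
        (hχ'.ch.mono le_top).ipH_eq_mu hθ.ch]
      split_ifs with h6
      · obtain ⟨T, h7, h8⟩ := cliff_T (nm_top M) hχ' hθ h6
        rw [h7, h8]; push_cast; ring
      · simp [not_not.mp h6]
    exact_mod_cast mul_right_cancel₀ hθ.one_ne h5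
  rw [← h2, ← Finset.sum_filter]
  refine Finset.sum_le_sum_of_subset fun χ hχ => ?_
  rw [Finset.mem_filter] at hχ ⊢
  have hχ' := (ir_top.mpr (mem_IF.mp hχ.1)).ch
  refine ⟨hχ.1, ?_⟩
  have h3 := hχ.2
  rw [(hχ'.mono le_top).mu_expand le_rfl (hψ'.ch.mono le_top)] at h3
  obtain ⟨η, hη, h4⟩ := Finset.exists_ne_zero_of_sum_ne_zero h3
  obtain ⟨y, hy, h5⟩ := clifford (nm_top M) hψ' hθ (IrS_ir hη) h1
    (mu_comm M η ψ ▸ right_ne_zero_of_mul h4)
  exact mu_cj (nm_top M) hχ' hy h5 ▸ left_ne_zero_of_mul h4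

theorem sum_comp_ker {R Q : Type} [Semiring R] [Group Q] [Fintype Q] (f : G →* Q)
    (hf : Function.Surjective f) (F : Q → R) : ∑ g, F (f g) = Nat.card f.ker * ∑ q, F q := by
  rw [Finset.sum_comp F f, Finset.image_univ_of_surjective hf, Finset.mul_sum]
  refine Finset.sum_congr rfl fun q _ => ?_
  rw [MonoidHom.card_fiber_eq_of_mem_range f (hf q) (hf 1), nsmul_eq_mul]
  congr 2
  rw [← Fintype.card_subtype, ← Nat.card_eq_fintype_card]
  rfl

theorem cp_map {Q : Type} [Group Q] [Fintype Q] (f : G →* Q) (hf : Function.Surjective f)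
    {Z : Subgroup G} (hZ : f.ker = Z) (hP : Z ≤ P) : Nat.card Z * cp (P.map f) =
      Nat.card P * ∑ χ ∈ (IF G).filter (Iv Z), mu P χ χ := by
  have h0 : ∀ x, f x ∈ P.map f ↔ x ∈ P := fun x => by
    rw [← mem_comap, comap_map_eq_self (hZ ▸ hP)]
  have hn : Z.Normal := hZ ▸ inferInstance
  have hk : ∀ x, x ∈ Z ↔ f x = 1 := fun x => hZ ▸ Iff.rfl
  have h1 : (Nat.card Z : ℂ) * (Nat.card Z * cp (P.map f)) =
      ∑ x, if x ∈ P then ∑ z, if z ∈ Z then ∑ χ ∈ IF G, χ x⁻¹ * χ (x * z) else 0 else 0 := by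
    simp only [cp, Nat.cast_sum, Nat.cast_ite, Nat.cast_one, Nat.cast_zero]
    rw [← hZ, ← sum_comp_ker f hf fun g => ∑ x, if x ∈ P.map f ∧ g * x = x * g then (1 : ℂ) else 0,
      Finset.sum_comm,
      ← sum_comp_ker f hf fun x => ∑ g, if x ∈ P.map f ∧ f g * x = x * f g then (1 : ℂ) else 0, hZ]
    refine Finset.sum_congr rfl fun x _ => ?_
    simp only [h0, ← col]
    split_ifs with hx
    · symm
      rw [Finset.sum_congr rfl (g := fun z => ∑ g,
        if x⁻¹ * (g * x * g⁻¹) = z then (if z ∈ Z then (1 : ℂ) else 0) else 0), Finset.sum_comm]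
      · refine Finset.sum_congr rfl fun g _ => ?_
        simp only [Finset.sum_ite_eq, Finset.mem_univ, if_true, hx, hk, true_and, map_mul, map_inv,
          inv_mul_eq_one, eq_mul_inv_iff_mul_eq, eq_comm (a := f x * f g)]
      · intro z _
        split_ifs <;> simp [inv_mul_eq_iff_eq_mul]
    · simp [hx]
  have h2 : (Nat.card Z : ℂ) * (Nat.card Z * cp (P.map f)) = Nat.card Z *
      (Nat.card P * ∑ χ ∈ (IF G).filter (Iv Z), (mu P χ χ : ℂ)) := by
    rw [h1, Finset.sum_filter, Finset.mul_sum, Finset.mul_sum,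
      Finset.sum_congr rfl (g := fun x => ∑ χ ∈ IF G, if x ∈ P then
        (if Iv Z χ then Nat.card Z * χ x else 0) * χ x⁻¹ else 0), Finset.sum_comm]
    · refine Finset.sum_congr rfl fun χ hχ => ?_
      have h3 := (ir_top.mpr (mem_IF.mp hχ)).ch.mono (le_top : P ≤ ⊤)
      split_ifs
      · rw [← h3.ipH_eq_mu h3, ipH, ← mul_assoc (Nat.card P : ℂ), mul_inv_cancel₀ (cardH_ne P),
          one_mul, Finset.mul_sum]
        simp [mul_assoc]
      · simp
    · intro x _
      split_ifs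
      · rw [Finset.sum_congr rfl (g := fun z => ∑ χ ∈ IF G,
          (if z ∈ Z then χ (x * z) else 0) * χ x⁻¹), Finset.sum_comm]
        · exact Finset.sum_congr rfl fun χ hχ => by
            rw [← Finset.sum_mul, sum_iv (mem_IF.mp hχ)]
        · intro z _
          split_ifs <;> simp [mul_comm]
      · simp
  exact_mod_cast mul_left_cancel₀ (cardH_ne Z) h2

theorem span_le {Q : Type} [Group Q] [Fintype Q] (f : G →* Q) (hf : Function.Surjective f)
    [P.Normal] {Z : Subgroup G} (hZ : f.ker = Z) (hP : Z ≤ P) (O : Finset (G → ℂ))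
    (hO : ∀ χ ∈ Irr G, ¬ Iv Z χ → ∃ ψ ∈ O, ψ ∈ Irr G ∧ mu P χ ψ ≠ 0) :
    cp P ≤ Nat.card Z * cp (P.map f) + Nat.card G * O.card := by
  rw [cp_map f hf hZ hP, cp_eq, ← Finset.sum_filter_add_sum_filter_not _ (Iv Z), mul_add,
    ← P.card_mul_index, mul_assoc]
  refine Nat.add_le_add_left (Nat.mul_le_mul_left _ ?_) _
  calc _ ≤ ∑ χ ∈ IF G, ∑ ψ ∈ O.filter (· ∈ Irr G), if mu P χ ψ ≠ 0 then mu P χ χ else 0 := by
        rw [Finset.sum_filter]
        refine Finset.sum_le_sum fun χ hχ => ?_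
        split_ifs with h
        · exact Nat.zero_le _
        · obtain ⟨ψ, h1, h2, h3⟩ := hO χ (mem_IF.mp hχ) h
          refine le_trans ?_ (Finset.single_le_sum (fun _ _ => Nat.zero_le _)
            (Finset.mem_filter.mpr ⟨h1, h2⟩))
          simp [h3]
    _ ≤ ∑ ψ ∈ O.filter (· ∈ Irr G), P.index := by
        rw [Finset.sum_comm]
        refine Finset.sum_le_sum fun ψ hψ => ?_
        rw [← Finset.sum_filter]
        exact block_le (Finset.mem_filter.mp hψ).2
    _ ≤ _ := by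
        rw [Finset.sum_const, smul_eq_mul, mul_comm]
        exact Nat.mul_le_mul_left _ (Finset.card_filter_le _ _)

theorem sum_iv_two [A.Normal] [B.Normal] (h : Disjoint A B) :
    ∑ χ ∈ IF G, (if Iv A χ then 1 else 0) * (if Iv B χ then 1 else 0) * (χ 1 * χ 1) =
      Nat.card G * ((Nat.card A : ℂ)⁻¹ * (Nat.card B : ℂ)⁻¹) := by
  have h1 : (∑ x, if x ∈ A then ∑ y, if y ∈ B then ∑ χ ∈ IF G, χ 1⁻¹ * χ (x * y) else 0 else 0) =
      Nat.card G := by
    simp only [← col]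
    rw [Finset.sum_eq_single 1, if_pos A.one_mem, Finset.sum_eq_single 1]
    · simp
    · intro y _ hy
      simp [hy.symm]
    · simp
    · intro x _ hx
      split_ifs with hxA
      · refine Finset.sum_eq_zero fun y _ => ?_
        split_ifs with hy
        · have : (1 : G) ≠ x * y := fun h1 => hx (disjoint_def.mp h hxA
            (by rw [eq_inv_of_mul_eq_one_left h1.symm]; exact B.inv_mem hy))
          simp [this]
        · rfl
      · rfl
    · simp
  rw [← h1, Finset.sum_congr rfl (s₂ := Finset.univ) (g := fun x => ∑ χ ∈ IF G,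
    (if x ∈ A then χ (1 * x) else 0) * ((if Iv B χ then Nat.card B else 0) * χ 1)),
    Finset.sum_comm, Finset.sum_mul]
  · refine Finset.sum_congr rfl fun χ hχ => ?_
    rw [← Finset.sum_mul, sum_iv (mem_IF.mp hχ)]
    have := cardH_ne A
    have := cardH_ne B
    split_ifs <;> simp
    field_simp
  · intro x _
    split_ifs
    · rw [Finset.sum_congr rfl (g := fun y => ∑ χ ∈ IF G,
        (if y ∈ B then χ (x * y) else 0) * χ 1), Finset.sum_comm]
      · refine Finset.sum_congr rfl fun χ hχ => ?_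
        rw [← Finset.sum_mul, sum_iv (mem_IF.mp hχ)]
        split_ifs <;> simp
        ring
      · intro y _
        split_ifs <;> simp [mul_comm]
    · simp

theorem exists_cell {A' B' : Subgroup G} [A.Normal] [B.Normal] [A'.Normal] [B'.Normal]
    (hA : A < A') (hB : B < B') (h : Disjoint A' B') :
    ∃ χ ∈ Irr G, (Iv A χ ∧ ¬ Iv A' χ) ∧ Iv B χ ∧ ¬ Iv B' χ := by
  have h1 : ∑ χ ∈ IF G, ((if Iv A χ then 1 else 0) - (if Iv A' χ then 1 else 0)) *
      ((if Iv B χ then 1 else 0) - (if Iv B' χ then 1 else 0)) * (χ 1 * χ 1) = Nat.card G *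
      (((Nat.card A : ℂ)⁻¹ - (Nat.card A' : ℂ)⁻¹) * ((Nat.card B : ℂ)⁻¹ - (Nat.card B' : ℂ)⁻¹)) := by
    simp only [sub_mul, mul_sub, Finset.sum_sub_distrib, sum_iv_two h,
      sum_iv_two (h.mono hA.le hB.le), sum_iv_two (h.mono_left hA.le),
      sum_iv_two (h.mono_right hB.le)]
  have h2 : ∀ {X Y : Subgroup G}, X < Y → (Nat.card X : ℂ)⁻¹ - (Nat.card Y : ℂ)⁻¹ ≠ 0 := by
    intro X Y hXY h0
    rw [sub_eq_zero, inv_inj, Nat.cast_inj] at h0
    exact hXY.ne (eq_of_le_of_card_ge hXY.le h0.ge)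
  obtain ⟨χ, hχ, h3⟩ := Finset.exists_ne_zero_of_sum_ne_zero
    (h1.trans_ne (mul_ne_zero card_ne (mul_ne_zero (h2 hA) (h2 hB))))
  have h4 : ∀ {X Y : Subgroup G}, X ≤ Y →
      (if Iv X χ then (1 : ℂ) else 0) - (if Iv Y χ then 1 else 0) ≠ 0 → Iv X χ ∧ ¬ Iv Y χ := by
    intro X Y hXY h0
    by_cases h5 : Iv Y χ
    · simp [h5, show Iv X χ from fun g x hx => h5 g x (hXY hx)] at h0
    · exact ⟨by simpa [h5] using h0, h5⟩
  exact ⟨χ, mem_IF.mp hχ, h4 hA.le (left_ne_zero_of_mul (left_ne_zero_of_mul h3)),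
    h4 hB.le (right_ne_zero_of_mul (left_ne_zero_of_mul h3))⟩

end Pool.Agent.P.MP_530519_al
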