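import Pool.Agent.P.MP_530519_al.Main
import Pool.Agent.P.MP_530519_al.SS.Defs
import Pool.Agent.P.MP_530519_al.SS.Canon

/-! Groups whose `p`-chief factors have order `p`. -/

namespace Pool.Agent.P.MP_530519_al

open Subgroup
open scoped Classical

variable {G : Type} [Group G] {R : ℕ → Prop} {p : ℕ} {A N Z : Subgroup G}

/-- The orders of all chief factors satisfy `R`. -/
def Cls (R : ℕ → Prop) (G : Type) [Group G] : Prop :=
  ∀ N M : Subgroup G, IsChief N M → R (N.relIndex M)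

theorem Cls.of_surj {Q : Type} [Group Q] (h : Cls R G) (f : G →* Q) (hf : Function.Surjective f) :
    Cls R Q := by
  rintro N M ⟨h1, h2, h3, h4⟩
  have h5 := h (N.comap f) (M.comap f) ⟨h1.comap f, h2.comap f,
    lt_of_le_of_ne (comap_mono h3.le) fun h0 => h3.ne (comap_injective hf h0), fun L hL h6 h7 => by
      have h8 : (L.map f).comap f = L := comap_map_eq_self ((ker_le_comap f N).trans h6)
      refine (h4 (L.map f) (hL.map f hf) ?_ (map_le_iff_le_comap.mpr h7)).imp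
        (fun h9 => by rw [← h9, h8]) fun h9 => by rw [← h9, h8]
      rw [← map_comap_eq_self_of_surjective hf N]
      exact map_mono h6⟩
  rwa [relIndex_comap, map_comap_eq_self_of_surjective hf] at h5

/-- Every chief factor has order `p` or order prime to `p`. -/
abbrev PS (p : ℕ) (G : Type) [Group G] : Prop := Cls (fun k => k = p ∨ ¬ p ∣ k) G

theorem exists_phi [Z.Normal] (hp : p.Prime) (hZ : Nat.card Z = p) :
    ∃ φ : G →* (ZMod p)ˣ, ∀ g, φ g = 1 → ∀ z ∈ Z, g * z = z * g := by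
  have := Fact.mk hp
  have := isCyclic_of_prime_card hZ
  subst hZ
  refine ⟨(IsCyclic.mulAutMulEquiv Z).toMonoidHom.comp MulAut.conjNormal, fun g hg z hz => ?_⟩
  have h1 : MulAut.conjNormal (H := Z) g = 1 := by simpa using hg
  have h2 := congrArg (fun σ : MulAut Z => (σ ⟨z, hz⟩ : G)) h1
  simpa [mul_inv_eq_iff_eq_mul] using h2

variable [Fintype G]

theorem Cls.min {B : Subgroup G} {l : ℕ} (h : Cls R G) (hB : MinN B l) : R (Nat.card B) := by
  simpa using h ⊥ B ⟨inferInstance, hB.normal, bot_lt_iff_ne_bot.mpr hB.ne_bot,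
    fun L hL _ h1 => hB.min L hL h1⟩

theorem exists_chief (hN : N.Normal) (hA : A.Normal) (h : N < A) : ∃ M, IsChief N M ∧ M ≤ A := by
  obtain ⟨M, ⟨h1, h2, h3⟩, hmin⟩ := Set.exists_min_image
    {M : Subgroup G | M.Normal ∧ N < M ∧ M ≤ A} (fun M => Nat.card M) (Set.toFinite _)
    ⟨A, hA, h, le_rfl⟩
  refine ⟨M, ⟨hN, h1, h2, fun L hL h4 h5 => ?_⟩, h3⟩
  rw [or_iff_not_imp_left]
  exact fun h0 => eq_of_le_of_card_ge h5 (hmin L ⟨hL, lt_of_le_of_ne h4 (Ne.symm h0), h5.trans h3⟩)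

theorem not_dvd_card (hp : p.Prime) (h : ∀ x ∈ A, ∃ j, ¬ p ∣ j ∧ x ^ j = 1) : ¬ p ∣ Nat.card A := by
  have := Fact.mk hp
  intro h1
  obtain ⟨x, hx⟩ := exists_prime_orderOf_dvd_card' p h1
  obtain ⟨j, h2, h3⟩ := h x x.2
  exact h2 (hx ▸ orderOf_dvd_of_pow_eq_one (Subtype.ext h3))

omit [Fintype G] in
theorem card_eq_mul {Q : Type} [Group Q] (f : G →* Q) (hf : Function.Surjective f) :
    Nat.card G = Nat.card f.ker * Nat.card Q := by
  rw [← f.ker.card_mul_index, index_ker, MonoidHom.range_eq_top.mpr hf, card_top]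

theorem chain (hp : p.Prime) (h : PS p G) (hA : A.Normal) {a : ℕ} (ha : Nat.card A = p ^ a) :
    ∃ c : ℕ → Subgroup G, Monotone c ∧ (∀ i, (c i).Normal ∧ c i ≤ A) ∧ ∀ i < a, c i < c (i + 1) := by
  have h1 : ∀ N : Subgroup G, ∃ M : Subgroup G, N ≤ M ∧ (N.Normal → N ≤ A → M.Normal ∧ M ≤ A ∧
      (N ≠ A → Nat.card M = Nat.card N * p)) := by
    intro N
    by_cases h2 : N.Normal ∧ N < A
    · obtain ⟨M, hM, h3⟩ := exists_chief h2.1 hA h2.2
      refine ⟨M, hM.2.2.1.le, fun _ _ => ⟨hM.2.1, h3, fun _ => ?_⟩⟩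
      rw [← card_mul_rel hM.2.2.1.le, (h N M hM).resolve_right (not_not.mpr ?_)]
      obtain ⟨i, -, hi⟩ := (Nat.dvd_prime_pow hp).mp
        ((Dvd.intro_left _ (card_mul_rel hM.2.2.1.le)).trans (ha ▸ card_dvd_of_le h3))
      rw [hi]
      refine dvd_pow_self p fun h0 => hM.2.2.1.not_ge (relIndex_eq_one.mp ?_)
      rw [hi, h0, pow_zero]
    · exact ⟨N, le_rfl, fun h3 h4 => ⟨h3, h4, fun h5 => absurd ⟨h3, lt_of_le_of_ne h4 h5⟩ h2⟩⟩
  choose F hF hF' using h1
  have h2 : ∀ i, (F^[i] ⊥).Normal ∧ F^[i] ⊥ ≤ A := fun i => by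
    induction i with
    | zero => exact ⟨inferInstanceAs (⊥ : Subgroup G).Normal, bot_le⟩
    | succ i ih =>
      rw [Function.iterate_succ_apply']
      exact ⟨(hF' _ ih.1 ih.2).1, (hF' _ ih.1 ih.2).2.1⟩
  have h3 : ∀ i ≤ a, Nat.card (F^[i] ⊥ : Subgroup G) = p ^ i := fun i => by
    induction i with
    | zero => simp
    | succ i ih =>
      intro hi
      rw [Function.iterate_succ_apply', (hF' _ (h2 i).1 (h2 i).2).2.2, ih (by omega), pow_succ]
      intro h0
      have := ih (by omega)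
      rw [h0, ha] at this
      exact absurd (Nat.pow_right_injective hp.two_le this) (by omega)
  have h4 : ∀ i, F^[i] ⊥ ≤ F^[i + 1] ⊥ := fun i => by
    rw [Function.iterate_succ_apply']; exact hF _
  refine ⟨fun i => F^[i] ⊥, monotone_nat_of_le_succ h4, h2, fun i hi => lt_of_le_of_ne (h4 i)
    fun h0 => ?_⟩
  have h5 := h3 (i + 1) hi
  simp only at h0
  rw [← h0, h3 i hi.le] at h5
  exact absurd (Nat.pow_right_injective hp.two_le h5) (by omega)

/-- The derived subgroup has a normal `p`-complement. -/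
theorem exists_Y (hp : p.Prime) (n : ℕ) : ∀ (G : Type) [Group G] [Fintype G] [Group.IsSolvable G],
    Nat.card G = n → PS p G → ∃ Y : Subgroup G, Y.Normal ∧ ¬ p ∣ Nat.card Y ∧
      ∀ x ∈ commutator G, ∃ k, x ^ p ^ k ∈ Y := by
  induction n using Nat.strong_induction_on with
  | _ n ih =>
  intro G _ _ _ hn h
  by_cases h0 : (⊤ : Subgroup G) = ⊥
  · exact ⟨⊥, inferInstance, by simpa using hp.one_lt.ne', fun x _ => ⟨0, h0 ▸ mem_top _⟩⟩
  obtain ⟨B, l, -, hB⟩ := exists_minN (⊤ : Subgroup G) h0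
  have := hB.normal
  have : Fintype (G ⧸ B) := Fintype.ofFinite _
  have hπ := QuotientGroup.mk'_surjective B
  set π := QuotientGroup.mk' B
  have hk : π.ker = B := QuotientGroup.ker_mk' B
  obtain ⟨Y, hY, h1, h2⟩ := ih _ (hn ▸ card_quot_lt hB.ne_bot) (G ⧸ B) rfl (h.of_surj _ hπ)
  have h3 : ∀ x ∈ commutator G, ∃ k, x ^ p ^ k ∈ Y.comap π := fun x hx => by
    obtain ⟨k, hk⟩ := h2 (π x)
      (commutator_mono le_top le_top (map_commutator_eq G π ▸ mem_map_of_mem π hx))
    exact ⟨k, by rwa [mem_comap, map_pow]⟩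
  have h4 : ∀ x ∈ Y.comap π, x ^ Nat.card Y ∈ B := fun x hx => by
    refine hk.le ?_
    rw [MonoidHom.mem_ker, map_pow]
    exact congrArg Subtype.val (pow_card_eq_one' (x := (⟨π x, hx⟩ : Y)))
  have h5 : ∀ x ∈ B, x ^ Nat.card B = 1 := fun x hx =>
    congrArg Subtype.val (pow_card_eq_one' (x := (⟨x, hx⟩ : B)))
  rcases h.min hB with h6 | h6
  · obtain ⟨φ, hφ⟩ := exists_phi hp h6
    let X : Subgroup G := Y.comap π ⊓ φ.ker
    have hX : X.Normal := inferInstance
    have h7 : ¬ p ∣ (center X).index := fun h7 => h1 (by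
      have h8 : B.subgroupOf X ≤ center X := fun b hb =>
        mem_center_iff.mpr fun x => Subtype.ext (hφ x x.2.2 b hb)
      refine (h7.trans (index_dvd_of_le h8)).trans ?_
      have h9 := relIndex_ker X π
      rw [hk] at h9
      exact h9.dvd.trans (card_dvd_of_le (map_le_iff_le_comap.mpr inf_le_left)))
    have h8 : ∀ a ∈ X, ∀ b ∈ X, ∀ j, (a * b) ^ ((center X).index * j) =
        a ^ ((center X).index * j) * b ^ ((center X).index * j) := fun a ha b hb j => by
      have h9 := congrArg (fun z : center X => ((z : X) : G))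
        (map_mul (MonoidHom.transferCenterPow X) ⟨a, ha⟩ ⟨b, hb⟩)
      have h10 := congrArg Subtype.val (mem_center_iff.mp
        (MonoidHom.transferCenterPow X ⟨b, hb⟩).2 (⟨a, ha⟩ ^ (center X).index))
      simp only [coe_mul, MonoidHom.transferCenterPow_apply, SubgroupClass.coe_pow] at h9 h10
      rw [pow_mul, h9, Commute.mul_pow h10, pow_mul, pow_mul]
    refine ⟨{ carrier := {x | x ∈ X ∧ x ^ ((center X).index * Nat.card Y) = 1}
              one_mem' := ⟨X.one_mem, one_pow _⟩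
              mul_mem' := fun {a b} ha hb =>
                ⟨X.mul_mem ha.1 hb.1, by rw [h8 a ha.1 b hb.1, ha.2, hb.2, one_mul]⟩
              inv_mem' := fun {a} ha => ⟨X.inv_mem ha.1, by rw [inv_pow, ha.2, inv_one]⟩ },
      ⟨fun a ha g => ⟨hX.conj_mem a ha.1 g, by rw [conj_pow, ha.2]; simp⟩⟩,
      not_dvd_card hp fun x hx => ⟨_, fun h9 => (hp.dvd_mul.mp h9).elim h7 h1, hx.2⟩,
      fun x hx => ?_⟩
    obtain ⟨k, hk⟩ := h3 x hx
    refine ⟨k + 1, ⟨by rw [pow_succ, pow_mul]; exact pow_mem hk p,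
      pow_mem (Abelianization.commutator_subset_ker φ hx) _⟩, ?_⟩
    have h9 := h5 _ (B.pow_mem (h4 _ hk) (center X).index)
    rw [h6] at h9
    rw [← h9]
    simp only [← pow_mul]
    congr 1
    ring
  · refine ⟨Y.comap π, hY.comap π, not_dvd_card hp fun x hx => ⟨Nat.card Y * Nat.card B,
      fun h9 => (hp.dvd_mul.mp h9).elim h1 h6, by rw [pow_mul, h5 _ (h4 x hx)]⟩, h3⟩

omit [Fintype G] in
theorem exists_hall {n e' : ℕ} (hc : n.Coprime e') (he : n * e' ≠ 0)
    (hG : ∀ g : G, g ^ (n * e') = 1) (h : ∀ x ∈ commutator G, x ^ n = 1) :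
    ∃ M : Subgroup G, Hall n e' M ∧ commutator G ≤ M := by
  refine ⟨((powMonoidHom n : Abelianization G →* Abelianization G).comp Abelianization.of).ker,
    ⟨hc, he, inferInstance, fun x hx => ?_, fun g => ?_⟩, fun x hx => ?_⟩
  · have h1 : x ^ n ∈ commutator G := by
      rw [← Abelianization.ker_of, MonoidHom.mem_ker, map_pow]; exact hx
    exact (pow_eq_one_iff_of_coprime hc).mp ⟨h _ h1, by rw [← pow_mul, hG]⟩
  · simp [← map_pow, ← pow_mul, mul_comm e', hG]
  · rw [← Abelianization.ker_of, MonoidHom.mem_ker] at hx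
    simp [hx]

theorem fact_quot (Y : Subgroup G) [Y.Normal] (h : ¬ p ∣ Nat.card Y) :
    (Nat.card (G ⧸ Y)).factorization p = (Nat.card G).factorization p := by
  rw [card_eq_card_quotient_mul_card_subgroup Y, Nat.factorization_mul Nat.card_pos.ne'
    Nat.card_pos.ne', Finsupp.add_apply, Nat.factorization_eq_zero_of_not_dvd h, add_zero]

end Pool.Agent.P.MP_530519_al
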